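import Mathlib
import Pool.Agent.R311.RES.B1

/-! The second moment of the central values over all characters, and over the large values in a coset. -/

set_option autoImplicit false

namespace Pool.Agent.J4.H37.MC
open Finset Pool.Agent.R311.RES
open scoped Classical

variable {q : ℕ} [Fact q.Prime]

lemma pair_sum (a b : (ZMod q)ˣ) : ∑ χ : DirichletCharacter ℂ q, χ (a : ZMod q) * χ ((b⁻¹ : (ZMod q)ˣ) : ZMod q) =
    if a = b then ((q : ℂ) - 1) else 0 := by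
  have : NeZero q := ⟨(Nat.Prime.pos Fact.out).ne'⟩
  have h1 := DirichletCharacter.sum_char_inv_mul_char_eq ℂ (Units.isUnit b) (a : ZMod q)
  rw [Nat.totient_prime Fact.out, Nat.cast_sub (Nat.Prime.one_lt Fact.out).le, Nat.cast_one] at h1
  have h2 : ∀ χ : DirichletCharacter ℂ q, χ (a : ZMod q) * χ ((b⁻¹ : (ZMod q)ˣ) : ZMod q) = χ (b : ZMod q)⁻¹ * χ (a : ZMod q) := by
    intro χ
    rw [mul_comm, ZMod.inv_coe_unit]
  rw [Finset.sum_congr rfl (fun χ _ => h2 χ), h1]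
  by_cases h : a = b
  · rw [if_pos h, if_pos (by rw [h])]
  · rw [if_neg h, if_neg (fun h' => h (Units.ext h').symm)]

lemma parseval (h : (ZMod q)ˣ → ℂ) : ∑ χ : DirichletCharacter ℂ q, ‖∑ a : (ZMod q)ˣ, χ (a : ZMod q) * h a‖ ^ 2 =
    ((q : ℝ) - 1) * ∑ a : (ZMod q)ˣ, ‖h a‖ ^ 2 := by
  have h1 : ∀ χ : DirichletCharacter ℂ q, ((‖∑ a : (ZMod q)ˣ, χ (a : ZMod q) * h a‖ ^ 2 : ℝ) : ℂ) =
      ∑ a : (ZMod q)ˣ, ∑ b : (ZMod q)ˣ, (h a * (starRingEnd ℂ) (h b)) * (χ (a : ZMod q) * χ ((b⁻¹ : (ZMod q)ˣ) : ZMod q)) := by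
    intro χ
    rw [← Complex.normSq_eq_norm_sq, ← Complex.mul_conj, map_sum, Finset.sum_mul_sum]
    apply Finset.sum_congr rfl
    intro a _
    apply Finset.sum_congr rfl
    intro b _
    rw [map_mul, ← chi_inv]
    ring
  have h2 : ((∑ χ : DirichletCharacter ℂ q, ‖∑ a : (ZMod q)ˣ, χ (a : ZMod q) * h a‖ ^ 2 : ℝ) : ℂ) =
      ((((q : ℝ) - 1) * ∑ a : (ZMod q)ˣ, ‖h a‖ ^ 2 : ℝ) : ℂ) := by
    rw [Complex.ofReal_sum, Finset.sum_congr rfl (fun χ _ => h1 χ), Finset.sum_comm]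
    rw [Complex.ofReal_mul, Complex.ofReal_sum, Finset.mul_sum]
    apply Finset.sum_congr rfl
    intro a _
    rw [Finset.sum_comm]
    have h3 : ∀ b : (ZMod q)ˣ, ∑ χ : DirichletCharacter ℂ q, (h a * (starRingEnd ℂ) (h b)) *
        (χ (a : ZMod q) * χ ((b⁻¹ : (ZMod q)ˣ) : ZMod q)) = if a = b then (h a * (starRingEnd ℂ) (h b)) * ((q : ℂ) - 1) else 0 := by
      intro b
      rw [← Finset.mul_sum, pair_sum, mul_ite, mul_zero]
    rw [Finset.sum_congr rfl (fun b _ => h3 b), Finset.sum_ite_eq, if_pos (mem_univ _), Complex.mul_conj,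
      Complex.normSq_eq_norm_sq]
    push_cast
    ring
  exact Complex.ofReal_injective h2

lemma sum_val_inv : ∑ a : (ZMod q)ˣ, ((a : ZMod q).val : ℝ)⁻¹ ≤ 1 + Real.log q := by
  have : NeZero q := ⟨(Nat.Prime.pos Fact.out).ne'⟩
  have h1 : ∑ a : (ZMod q)ˣ, ((a : ZMod q).val : ℝ)⁻¹ = ∑ n ∈ (univ : Finset (ZMod q)ˣ).image (fun a : (ZMod q)ˣ => (a : ZMod q).val), (n : ℝ)⁻¹ := by
    rw [Finset.sum_image]
    intro a _ b _ h
    exact Units.ext (ZMod.val_injective q h)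
  rw [h1]
  refine (Finset.sum_le_sum_of_subset_of_nonneg (t := Icc 1 q) ?_ (fun _ _ _ => by positivity)).trans ?_
  · intro n hn
    rw [mem_image] at hn
    obtain ⟨a, _, rfl⟩ := hn
    rw [mem_Icc]
    refine ⟨?_, (ZMod.val_lt (a : ZMod q)).le⟩
    rw [Nat.one_le_iff_ne_zero]
    intro h
    rw [ZMod.val_eq_zero] at h
    exact a.ne_zero h
  · have h2 := harmonic_le_one_add_log q
    rw [harmonic_eq_sum_Icc] at h2
    push_cast at h2
    exact h2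

lemma second_le : ∑ χ : DirichletCharacter ℂ q, ‖DirichletCharacter.LFunction χ (1 / 2)‖ ^ 2 ≤ 4 * q * (1 + Real.log q) := by
  have : NeZero q := ⟨(Nat.Prime.pos Fact.out).ne'⟩
  have hq : (1 : ℝ) ≤ q := by exact_mod_cast (Nat.Prime.one_lt Fact.out : 1 < q).le
  simp only [L_half]
  rw [parseval]
  have h1 : ∑ a : (ZMod q)ˣ, ‖hzv q a‖ ^ 2 ≤ 4 * (1 + Real.log q) := by
    refine le_trans ?_ (mul_le_mul_of_nonneg_left (sum_val_inv (q := q)) (by norm_num))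
    rw [Finset.mul_sum]
    apply Finset.sum_le_sum
    intro a _
    have h2 := pow_le_pow_left₀ (norm_nonneg _) (hzv_norm a) 2
    refine h2.trans (le_of_eq ?_)
    have hv : (0 : ℝ) ≤ ((a : ZMod q).val : ℝ) := by positivity
    rw [mul_pow, ← Real.rpow_natCast (((a : ZMod q).val : ℝ) ^ (-(1 / 2 : ℝ))) 2, ← Real.rpow_mul hv, ← Real.rpow_neg_one]
    norm_num
  have hlog : 0 ≤ Real.log q := Real.log_nonneg hq
  calc ((q : ℝ) - 1) * ∑ a : (ZMod q)ˣ, ‖hzv q a‖ ^ 2 ≤ q * (4 * (1 + Real.log q)) := by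
        apply mul_le_mul (by linarith) h1 (Finset.sum_nonneg fun _ _ => by positivity) (by linarith)
    _ = _ := by ring

/-- the large values in a coset -/
lemma big_sum (H : Subgroup (DirichletCharacter ℂ q)) (χ₀ : DirichletCharacter ℂ q) (V : ℝ) :
    ∑ ψ : H, (if V < ‖DirichletCharacter.LFunction (χ₀ * (ψ : DirichletCharacter ℂ q)) (1 / 2)‖ then
      ‖DirichletCharacter.LFunction (χ₀ * (ψ : DirichletCharacter ℂ q)) (1 / 2)‖ else 0) ≤
    Real.sqrt (({ψ : DirichletCharacter ℂ q | ψ ∈ H ∧ V < ‖DirichletCharacter.LFunction (χ₀ * ψ) (1 / 2)‖}.ncard : ℝ) *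
      (4 * q * (1 + Real.log q))) := by
  have : NeZero q := ⟨(Nat.Prime.pos Fact.out).ne'⟩
  obtain ⟨T, hT⟩ : ∃ T : Finset H, T = univ.filter (fun ψ : H => V < ‖DirichletCharacter.LFunction (χ₀ * (ψ : DirichletCharacter ℂ q)) (1 / 2)‖) := ⟨_, rfl⟩
  rw [← Finset.sum_filter, ← hT]
  have hcard : {ψ : DirichletCharacter ℂ q | ψ ∈ H ∧ V < ‖DirichletCharacter.LFunction (χ₀ * ψ) (1 / 2)‖}.ncard = T.card := by
    have h1 : {ψ : DirichletCharacter ℂ q | ψ ∈ H ∧ V < ‖DirichletCharacter.LFunction (χ₀ * ψ) (1 / 2)‖} =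
        (Subtype.val : H → DirichletCharacter ℂ q) '' (T : Set H) := by
      ext ψ
      constructor
      · rintro ⟨h1, h2⟩
        refine ⟨⟨ψ, h1⟩, ?_, rfl⟩
        rw [hT, mem_coe, mem_filter]
        exact ⟨mem_univ _, h2⟩
      · rintro ⟨⟨ψ', h1⟩, h2, rfl⟩
        rw [hT, mem_coe, mem_filter] at h2
        exact ⟨h1, h2.2⟩
    rw [h1, Set.ncard_image_of_injective _ Subtype.val_injective, Set.ncard_coe_finset]
  rw [hcard]
  apply Real.le_sqrt_of_sq_le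
  have h2 : (∑ ψ ∈ T, ‖DirichletCharacter.LFunction (χ₀ * (ψ : DirichletCharacter ℂ q)) (1 / 2)‖) ^ 2 ≤
      (T.card : ℝ) * ∑ ψ ∈ T, ‖DirichletCharacter.LFunction (χ₀ * (ψ : DirichletCharacter ℂ q)) (1 / 2)‖ ^ 2 := sq_sum_le_card_mul_sum_sq
  refine h2.trans (mul_le_mul_of_nonneg_left ?_ (Nat.cast_nonneg _))
  refine le_trans ?_ (second_le (q := q))
  have h3 : ∑ ψ ∈ T, ‖DirichletCharacter.LFunction (χ₀ * (ψ : DirichletCharacter ℂ q)) (1 / 2)‖ ^ 2 =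
      ∑ χ ∈ T.image (fun ψ : H => χ₀ * (ψ : DirichletCharacter ℂ q)), ‖DirichletCharacter.LFunction χ (1 / 2)‖ ^ 2 := by
    rw [Finset.sum_image]
    intro a _ b _ h
    exact Subtype.ext (mul_left_cancel h)
  rw [h3]
  exact Finset.sum_le_sum_of_subset_of_nonneg (subset_univ _) (fun _ _ _ => by positivity)

end Pool.Agent.J4.H37.MC
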