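import Mathlib
import Pool.Agent.R311.RES.A10
import Pool.Agent.J4.H37.MC.M1

/-! The resonance method on a subgroup of characters, with the number of the large values. The proofs follow
`Pool.Agent.R311.RES` (`A2`, `A3`, `A5`, `A10`). -/

set_option autoImplicit false

namespace Pool.Agent.J4.H37.MC
open Finset Pool.Agent.R311.RES Filter Topology
open scoped Classical

section
variable {q : ℕ} [Fact q.Prime]

theorem res_ineq_W (H : Subgroup (DirichletCharacter ℂ q)) (r : (ZMod q)ˣ → ℝ)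
    (hr : ∀ g k : (ZMod q)ˣ, k ∈ ann H → r (g * k) = r g) (hz : (ZMod q)ˣ → ℂ)
    (Lv : DirichletCharacter ℂ q → ℂ) (V : ℝ) (hV0 : 0 ≤ V)
    (hL : ∀ χ ∈ H, Lv χ = ∑ a : (ZMod q)ˣ, χ (a : ZMod q) * hz a) (hr0 : ∀ g, 0 ≤ r g) (W : ℝ)
    (hW : ∑ χ : H, (if V < ‖Lv χ‖ then ‖Lv χ‖ else 0) ≤ W) :
    ((Fintype.card H : ℝ) * (Fintype.card (ann H) : ℝ)) * ∑ a : (ZMod q)ˣ, (hz a).re * ∑ g, r g * r (a * g) ≤
      V * ((Fintype.card H : ℝ) * (Fintype.card (ann H) : ℝ) * ∑ g, r g ^ 2) + (∑ g, r g) ^ 2 * W := by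
  have h1 : ∑ χ : H, ((‖Res r (χ : DirichletCharacter ℂ q)‖ ^ 2 : ℝ) : ℂ) *
      Lv (χ : DirichletCharacter ℂ q) = ∑ a : (ZMod q)ˣ, hz a *
      (((Fintype.card H : ℝ) * (Fintype.card (ann H) : ℝ) * ∑ g, r g * r (a * g) : ℝ) : ℂ) := by
    have h2 : ∀ χ : H, ((‖Res r (χ : DirichletCharacter ℂ q)‖ ^ 2 : ℝ) : ℂ) *
      Lv (χ : DirichletCharacter ℂ q) = ∑ a : (ZMod q)ˣ, hz a *
      (((‖Res r (χ : DirichletCharacter ℂ q)‖ ^ 2 : ℝ) : ℂ) *
        (χ : DirichletCharacter ℂ q) (a : ZMod q)) := by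
      intro χ
      rw [hL χ.1 χ.2, Finset.mul_sum]
      apply Finset.sum_congr rfl
      intro a _
      ring
    rw [Finset.sum_congr rfl (fun χ _ => h2 χ), Finset.sum_comm]
    apply Finset.sum_congr rfl
    intro a _
    rw [← Finset.mul_sum, first_moment H r hr a]
  have hR : ∀ χ : DirichletCharacter ℂ q, ‖Res r χ‖ ≤ ∑ g, r g := by
    intro χ
    refine (norm_sum_le _ _).trans (Finset.sum_le_sum fun g _ => ?_)
    rw [norm_mul, Complex.norm_real, Real.norm_of_nonneg (hr0 g)]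
    exact mul_le_of_le_one_right (hr0 g) (DirichletCharacter.norm_le_one χ _)
  have h3 : ‖∑ χ : H, ((‖Res r (χ : DirichletCharacter ℂ q)‖ ^ 2 : ℝ) : ℂ) *
      Lv (χ : DirichletCharacter ℂ q)‖ ≤ V * ((Fintype.card H : ℝ) * (Fintype.card (ann H) : ℝ) *
        ∑ g, r g ^ 2) + (∑ g, r g) ^ 2 * W := by
    refine le_trans ?_ (add_le_add_right (mul_le_mul_of_nonneg_left hW (sq_nonneg _)) _)
    rw [← second_moment H r hr, Finset.mul_sum, Finset.mul_sum, ← Finset.sum_add_distrib]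
    refine (norm_sum_le _ _).trans (Finset.sum_le_sum fun χ _ => ?_)
    rw [norm_mul, Complex.norm_real, Real.norm_of_nonneg (by positivity), mul_comm]
    have hRχ : ‖Res r (χ : DirichletCharacter ℂ q)‖ ^ 2 ≤ (∑ g, r g) ^ 2 := pow_le_pow_left₀ (norm_nonneg _) (hR _) 2
    split_ifs with hc
    · have h5 : ‖Lv (χ : DirichletCharacter ℂ q)‖ * ‖Res r (χ : DirichletCharacter ℂ q)‖ ^ 2 ≤
          (∑ g, r g) ^ 2 * ‖Lv (χ : DirichletCharacter ℂ q)‖ := by
        rw [mul_comm]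
        exact mul_le_mul_of_nonneg_right hRχ (norm_nonneg _)
      have h6 : 0 ≤ V * ‖Res r (χ : DirichletCharacter ℂ q)‖ ^ 2 := mul_nonneg hV0 (by positivity)
      linarith
    · rw [mul_zero, add_zero]
      exact mul_le_mul_of_nonneg_right (not_lt.1 hc) (by positivity)
  have h4 : (∑ χ : H, ((‖Res r (χ : DirichletCharacter ℂ q)‖ ^ 2 : ℝ) : ℂ) *
      Lv (χ : DirichletCharacter ℂ q)).re = ((Fintype.card H : ℝ) * (Fintype.card (ann H) : ℝ)) *
      ∑ a : (ZMod q)ˣ, (hz a).re * ∑ g, r g * r (a * g) := by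
    rw [h1, Complex.re_sum, Finset.mul_sum]
    apply Finset.sum_congr rfl
    intro a _
    rw [Complex.re_mul_ofReal]
    ring
  have h5 := (Complex.re_le_norm _).trans h3
  rw [h4] at h5
  exact h5

theorem res_main_W {α β : Type*} (H : Subgroup (DirichletCharacter ℂ q)) (I : Finset α)
    (E : Finset β) (src tgt : β → α) (π : α → (ZMod q)ˣ) (lab : β → (ZMod q)ˣ)
    (hs : ∀ e ∈ E, src e ∈ I) (ht : ∀ e ∈ E, tgt e ∈ I)
    (hπ : ∀ e ∈ E, π (tgt e) = lab e * π (src e))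
    (is : ∀ e ∈ E, ∀ e' ∈ E, lab e = lab e' → src e = src e' → e = e')
    (it : ∀ e ∈ E, ∀ e' ∈ E, lab e = lab e' → tgt e = tgt e' → e = e')
    (V : ℝ) (hV0 : 0 ≤ V) (W : ℝ) (hW : ∑ χ : H, (if V < ‖DirichletCharacter.LFunction (χ : DirichletCharacter ℂ q) (1 / 2)‖ then
      ‖DirichletCharacter.LFunction (χ : DirichletCharacter ℂ q) (1 / 2)‖ else 0) ≤ W) (hW0 : 0 ≤ W) :
    ∑ e ∈ E, ((lab e : ZMod q).val : ℝ) ^ (-(1 / 2 : ℝ)) ≤
      V * #I + 3 * (q : ℝ) ^ (-(1 / 2 : ℝ)) * (#I : ℝ) ^ 2 * (Fintype.card (ann H) : ℝ) +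
        (#I : ℝ) ^ 2 * W / (Fintype.card H : ℝ) := by
  set K : ℝ := (Fintype.card (ann H) : ℝ) with hK
  have hK0 : 0 < K := by
    have : 0 < Fintype.card (ann H) := Fintype.card_pos
    rw [hK]; exact_mod_cast this
  set N : (ZMod q)ˣ → ℕ := fun g => (I.filter (fun i => π i * g⁻¹ ∈ ann H)).card with hN
  set r : (ZMod q)ˣ → ℝ := fun g => Real.sqrt (N g) with hr
  have hsq : ∀ g, r g ^ 2 = N g := fun g => Real.sq_sqrt (Nat.cast_nonneg _)
  have hr0 : ∀ g, 0 ≤ r g := fun g => Real.sqrt_nonneg _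
  have hinv : ∀ g k : (ZMod q)ˣ, k ∈ ann H → r (g * k) = r g := by
    intro g k hk
    simp only [hr, hN]
    have : ∀ i : α, π i * (g * k)⁻¹ ∈ ann H ↔ π i * g⁻¹ ∈ ann H := by
      intro i
      rw [mul_inv, ← mul_assoc]
      exact Subgroup.mul_mem_cancel_right _ ((ann H).inv_mem hk)
    simp_rw [this]
  have hone : ∀ b : (ZMod q)ˣ, ∑ g : (ZMod q)ˣ, (if b * g⁻¹ ∈ ann H then (1 : ℝ) else 0) = K := by
    intro b
    have := sum_inv H (fun _ => (1 : ℝ)) (fun _ _ _ => rfl) b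
    rw [this, mul_one]
  have hNsum : ∑ g, (N g : ℝ) = #I * K := by
    have h1 : ∀ g, (N g : ℝ) = ∑ i ∈ I, (if π i * g⁻¹ ∈ ann H then (1 : ℝ) else 0) := by
      intro g
      simp only [hN]
      rw [Finset.card_filter]
      push_cast
      rfl
    rw [Finset.sum_congr rfl (fun g _ => h1 g), Finset.sum_comm,
      Finset.sum_congr rfl (fun i _ => hone (π i)), Finset.sum_const, nsmul_eq_mul]
  have hH0 : (0 : ℝ) < (Fintype.card H : ℝ) := by
    have : 0 < Fintype.card H := Fintype.card_pos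
    exact_mod_cast this
  have hrs : ∑ g, r g ≤ #I * K := by
    rw [← hNsum]
    exact Finset.sum_le_sum fun g _ => sqrt_nat_le _
  -- the inequality
  have hr2 : ∑ g, r g ^ 2 = #I * K := by
    rw [Finset.sum_congr rfl (fun g _ => hsq g), hNsum]
  have hmain : ∑ a : (ZMod q)ˣ, (hzv q a).re * ∑ g, r g * r (a * g) ≤ V * (#I * K) + (#I : ℝ) ^ 2 * K * W / (Fintype.card H : ℝ) := by
    have h0 := res_ineq_W H r hinv (hzv q) (fun χ => DirichletCharacter.LFunction χ (1 / 2)) V hV0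
      (fun χ _ => L_half χ) hr0 W hW
    rw [hr2, ← hK] at h0
    have h1 : (∑ g, r g) ^ 2 * W ≤ (#I * K) ^ 2 * W :=
      mul_le_mul_of_nonneg_right (pow_le_pow_left₀ (Finset.sum_nonneg fun g _ => hr0 g) hrs 2) hW0
    have h2 : ((Fintype.card H : ℝ) * K) * ∑ a : (ZMod q)ˣ, (hzv q a).re * ∑ g, r g * r (a * g) ≤
        ((Fintype.card H : ℝ) * K) * (V * (#I * K) + (#I : ℝ) ^ 2 * K * W / (Fintype.card H : ℝ)) := by
      have e1 : ((Fintype.card H : ℝ) * K) * (V * (#I * K) + (#I : ℝ) ^ 2 * K * W / (Fintype.card H : ℝ)) =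
          V * ((Fintype.card H : ℝ) * K * (#I * K)) + (#I * K) ^ 2 * W := by
        field_simp
      rw [e1]
      linarith
    exact le_of_mul_le_mul_left h2 (by positivity)
  -- the count of edges
  set M : (ZMod q)ˣ → (ZMod q)ˣ → ℕ := fun a g =>
    (E.filter (fun e => lab e = a ∧ π (src e) * g⁻¹ ∈ ann H)).card with hM
  have hM1 : ∀ a g, M a g ≤ N g := by
    intro a g
    simp only [hM, hN]
    refine Finset.card_le_card_of_injOn src ?_ ?_
    · intro e he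
      rw [mem_coe, mem_filter] at he
      rw [mem_coe, mem_filter]
      exact ⟨hs e he.1, he.2.2⟩
    · intro e he e' he' h
      rw [mem_coe, mem_filter] at he he'
      exact is e he.1 e' he'.1 (he.2.1.trans he'.2.1.symm) h
  have hM2 : ∀ a g, M a g ≤ N (a * g) := by
    intro a g
    simp only [hM, hN]
    refine Finset.card_le_card_of_injOn tgt ?_ ?_
    · intro e he
      rw [mem_coe, mem_filter] at he
      rw [mem_coe, mem_filter]
      refine ⟨ht e he.1, ?_⟩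
      rw [hπ e he.1, he.2.1]
      have : a * π (src e) * (a * g)⁻¹ = π (src e) * g⁻¹ := by
        rw [mul_inv, mul_comm a, mul_assoc, mul_inv_cancel_left]
      rw [this]
      exact he.2.2
    · intro e he e' he' h
      rw [mem_coe, mem_filter] at he he'
      exact it e he.1 e' he'.1 (he.2.1.trans he'.2.1.symm) h
  have hMr : ∀ a g, (M a g : ℝ) ≤ r g * r (a * g) := by
    intro a g
    have h1 : (M a g : ℝ) = Real.sqrt (M a g) * Real.sqrt (M a g) :=
      (Real.mul_self_sqrt (Nat.cast_nonneg _)).symm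
    rw [h1]
    apply mul_le_mul (Real.sqrt_le_sqrt (by exact_mod_cast hM1 a g))
      (Real.sqrt_le_sqrt (by exact_mod_cast hM2 a g)) (Real.sqrt_nonneg _) (hr0 _)
  have hMsum : ∀ a, ∑ g, (M a g : ℝ) = K * ((E.filter (fun e => lab e = a)).card : ℝ) := by
    intro a
    have h1 : ∀ g, (M a g : ℝ) = ∑ e ∈ E.filter (fun e => lab e = a),
        (if π (src e) * g⁻¹ ∈ ann H then (1 : ℝ) else 0) := by
      intro g
      simp only [hM]
      rw [← Finset.filter_filter, Finset.card_filter]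
      push_cast
      rfl
    rw [Finset.sum_congr rfl (fun g _ => h1 g), Finset.sum_comm,
      Finset.sum_congr rfl (fun e _ => hone (π (src e))), Finset.sum_const, nsmul_eq_mul, mul_comm]
  set C : (ZMod q)ˣ → ℝ := fun a => ∑ g, r g * r (a * g) with hC
  have hC0 : ∀ a, 0 ≤ C a := fun a => Finset.sum_nonneg fun g _ => mul_nonneg (hr0 _) (hr0 _)
  have hC1 : ∀ a, K * ((E.filter (fun e => lab e = a)).card : ℝ) ≤ C a := by
    intro a
    rw [← hMsum a]
    exact Finset.sum_le_sum fun g _ => hMr a g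
  have hCsum : ∑ a, C a ≤ (#I * K) ^ 2 := by
    have h1 : ∑ a, C a = (∑ g, r g) * (∑ g, r g) := by
      simp only [hC]
      rw [Finset.sum_comm, Finset.sum_mul]
      apply Finset.sum_congr rfl
      intro g _
      rw [← Finset.mul_sum]
      congr 1
      exact Equiv.sum_comp (Equiv.mulRight g) r
    have h2 : ∑ g, r g ≤ #I * K := by
      rw [← hNsum]
      exact Finset.sum_le_sum fun g _ => sqrt_nat_le _
    rw [h1, sq]
    exact mul_le_mul h2 h2 (Finset.sum_nonneg fun g _ => hr0 g) (by positivity)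
  have hq0 : (0 : ℝ) ≤ 3 * (q : ℝ) ^ (-(1 / 2 : ℝ)) := by positivity
  have hlow : K * ∑ e ∈ E, ((lab e : ZMod q).val : ℝ) ^ (-(1 / 2 : ℝ)) -
      3 * (q : ℝ) ^ (-(1 / 2 : ℝ)) * (#I * K) ^ 2 ≤ V * (#I * K) + (#I : ℝ) ^ 2 * K * W / (Fintype.card H : ℝ) := by
    refine le_trans ?_ hmain
    have h1 : ∑ a : (ZMod q)ˣ, (((a : ZMod q).val : ℝ) ^ (-(1 / 2 : ℝ)) -
        3 * (q : ℝ) ^ (-(1 / 2 : ℝ))) * C a ≤ ∑ a : (ZMod q)ˣ, (hzv q a).re * C a :=
      Finset.sum_le_sum fun a _ => mul_le_mul_of_nonneg_right (hzv_re a) (hC0 a)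
    refine le_trans ?_ h1
    have h2 : ∑ a : (ZMod q)ˣ, (((a : ZMod q).val : ℝ) ^ (-(1 / 2 : ℝ)) -
        3 * (q : ℝ) ^ (-(1 / 2 : ℝ))) * C a =
        ∑ a : (ZMod q)ˣ, ((a : ZMod q).val : ℝ) ^ (-(1 / 2 : ℝ)) * C a -
        3 * (q : ℝ) ^ (-(1 / 2 : ℝ)) * ∑ a, C a := by
      rw [Finset.mul_sum, ← Finset.sum_sub_distrib]
      apply Finset.sum_congr rfl
      intro a _
      ring
    rw [h2]
    have h3 : K * ∑ e ∈ E, ((lab e : ZMod q).val : ℝ) ^ (-(1 / 2 : ℝ)) ≤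
        ∑ a : (ZMod q)ˣ, ((a : ZMod q).val : ℝ) ^ (-(1 / 2 : ℝ)) * C a := by
      have h4 : ∑ e ∈ E, ((lab e : ZMod q).val : ℝ) ^ (-(1 / 2 : ℝ)) =
          ∑ a : (ZMod q)ˣ, ((E.filter (fun e => lab e = a)).card : ℝ) *
            ((a : ZMod q).val : ℝ) ^ (-(1 / 2 : ℝ)) := by
        rw [← Finset.sum_fiberwise E lab]
        apply Finset.sum_congr rfl
        intro a _
        rw [Finset.sum_congr rfl (fun e he => by rw [(mem_filter.1 he).2]), Finset.sum_const,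
          nsmul_eq_mul]
      rw [h4, Finset.mul_sum]
      apply Finset.sum_le_sum
      intro a _
      calc _ = ((a : ZMod q).val : ℝ) ^ (-(1 / 2 : ℝ)) *
            (K * ((E.filter (fun e => lab e = a)).card : ℝ)) := by ring
        _ ≤ _ := mul_le_mul_of_nonneg_left (hC1 a) (by positivity)
    have h5 := mul_le_mul_of_nonneg_left hCsum hq0
    linarith
  have hfin : K * ∑ e ∈ E, ((lab e : ZMod q).val : ℝ) ^ (-(1 / 2 : ℝ)) ≤
      K * (V * #I + 3 * (q : ℝ) ^ (-(1 / 2 : ℝ)) * (#I : ℝ) ^ 2 * K + (#I : ℝ) ^ 2 * W / (Fintype.card H : ℝ)) := by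
    calc _ ≤ V * (#I * K) + (#I : ℝ) ^ 2 * K * W / (Fintype.card H : ℝ) + 3 * (q : ℝ) ^ (-(1 / 2 : ℝ)) * (#I * K) ^ 2 := by linarith
      _ = _ := by ring
  exact le_of_mul_le_mul_left hfin hK0

end

section
variable {κ : ℕ} {q : ℕ} [Fact q.Prime]

theorem res_blocks_W (H : Subgroup (DirichletCharacter ℂ q)) (P : Fin κ → Finset ℕ)
    (m t : Fin κ → ℕ) (y : Fin κ → ℝ) (hpr : ∀ i, ∀ p ∈ P i, p.Prime)
    (hcop : ∀ i, ∀ p ∈ P i, p.Coprime q) (hdis : ∀ i j, i ≠ j → Disjoint (P i) (P j))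
    (hy0 : ∀ i, 0 < y i) (hy : ∀ i, ∀ p ∈ P i, (p : ℝ) ≤ y i) (hm : ∀ i, m i ≤ (P i).card)
    (hyq : ∏ i, y i ^ (2 * t i) < q) (V : ℝ) (hV0 : 0 ≤ V) (W : ℝ)
    (hW : ∑ χ : H, (if V < ‖DirichletCharacter.LFunction (χ : DirichletCharacter ℂ q) (1 / 2)‖ then
      ‖DirichletCharacter.LFunction (χ : DirichletCharacter ℂ q) (1 / 2)‖ else 0) ≤ W) (hW0 : 0 ≤ W) :
    ∏ i, (((m i).choose (t i) : ℝ) * (((P i).card - m i).choose (t i) : ℝ) / (2 * y i) ^ (t i)) ≤
      V + 3 * (q : ℝ) ^ (-(1 / 2 : ℝ)) * (∏ i, (((P i).card.choose (m i) : ℝ) * 2 ^ (m i))) *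
        (Fintype.card (ann H) : ℝ) + (∏ i, (((P i).card.choose (m i) : ℝ) * 2 ^ (m i))) * W / (Fintype.card H : ℝ) := by
  set I := Fintype.piFinset (fun i => X (P i) (m i)) with hI
  set E := Fintype.piFinset (fun i => EE (P i) (m i) (t i)) with hE
  have hq : (0 : ℝ) < q := by exact_mod_cast (Nat.Prime.pos Fact.out : 0 < q)
  have memE : ∀ e ∈ E, ∀ i, e i ∈ EE (P i) (m i) (t i) := fun e he => Fintype.mem_piFinset.1 he
  have hlt : ∀ e ∈ E, labN e < q := by
    intro e he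
    have := (labN_le P m t y hy e (memE e he)).trans_lt hyq
    exact_mod_cast this
  have hval : ∀ e ∈ E, ((labG q e : (ZMod q)ˣ) : ZMod q).val = labN e := by
    intro e he
    rw [labG_val P m t hcop e (memE e he), ZMod.val_natCast, Nat.mod_eq_of_lt (hlt e he)]
  have hlab : ∀ e ∈ E, ∀ e' ∈ E, labG q e = labG q e' → labN e = labN e' := by
    intro e he e' he' h
    rw [← hval e he, ← hval e' he', h]
  have hmain := res_main_W H I E (fun e i => sr (e i)) (fun e i => tg (e i))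
    (fun x => ∏ i, piv (un q) (x i)) (labG q)
    (fun e he => Fintype.mem_piFinset.2 fun i => sr_mem (memE e he i))
    (fun e he => Fintype.mem_piFinset.2 fun i => tg_mem (memE e he i))
    (fun e he => by
      simp only [labG]
      rw [← Finset.prod_mul_distrib]
      exact Finset.prod_congr rfl fun i _ => piv_tg (un q) (memE e he i))
    (fun e he e' he' h h' => by
      funext i
      exact sr_inj (memE e he i) (memE e' he' i)
        (labN_inj P m t hpr hdis e e' (memE e he) (memE e' he') (hlab e he e' he' h) i)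
        (congrFun h' i))
    (fun e he e' he' h h' => by
      funext i
      exact tg_inj (memE e he i) (memE e' he' i)
        (labN_inj P m t hpr hdis e e' (memE e he) (memE e' he') (hlab e he e' he' h) i)
        (congrFun h' i))
    V hV0 W hW hW0
  have hlow : ∀ e ∈ E, ∏ i, ((y i) ^ (t i))⁻¹ ≤ ((labG q e : ZMod q).val : ℝ) ^ (-(1 / 2 : ℝ)) := by
    intro e he
    rw [hval e he]
    have h1 : (0 : ℝ) < labN e := by exact_mod_cast labN_pos P m t hpr e (memE e he)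
    have h2 := labN_le P m t y hy e (memE e he)
    have h3 : ∏ i, y i ^ (2 * t i) = (∏ i, y i ^ (t i)) ^ 2 := by
      rw [← Finset.prod_pow]
      apply Finset.prod_congr rfl
      intro i _
      rw [← pow_mul, mul_comm]
    have h4 : 0 < ∏ i, y i ^ (t i) := Finset.prod_pos fun i _ => pow_pos (hy0 i) _
    rw [h3] at h2
    rw [Finset.prod_inv_distrib, Real.rpow_neg h1.le, ← Real.sqrt_eq_rpow]
    apply inv_anti₀ (Real.sqrt_pos.2 h1)
    rw [Real.sqrt_le_left h4.le]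
    exact h2
  have hsum : (#E : ℝ) * ∏ i, ((y i) ^ (t i))⁻¹ ≤
      ∑ e ∈ E, ((labG q e : ZMod q).val : ℝ) ^ (-(1 / 2 : ℝ)) := by
    rw [← nsmul_eq_mul, ← Finset.sum_const]
    exact Finset.sum_le_sum hlow
  have hIcard : (#I : ℝ) = ∏ i, (((P i).card.choose (m i) : ℝ) * 2 ^ (m i)) := by
    rw [hI, Fintype.card_piFinset]
    push_cast
    apply Finset.prod_congr rfl
    intro i _
    rw [card_X]
    push_cast
    rfl
  have hIpos : (0 : ℝ) < #I := by
    rw [hIcard]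
    apply Finset.prod_pos
    intro i _
    have : 0 < (P i).card.choose (m i) := Nat.choose_pos (hm i)
    positivity
  have hEcard : (#E : ℝ) * ∏ i, ((y i) ^ (t i))⁻¹ = (#I : ℝ) *
      ∏ i, (((m i).choose (t i) : ℝ) * (((P i).card - m i).choose (t i) : ℝ) / (2 * y i) ^ (t i)) := by
    rw [hIcard, hE, Fintype.card_piFinset, Nat.cast_prod, ← Finset.prod_mul_distrib,
      ← Finset.prod_mul_distrib]
    apply Finset.prod_congr rfl
    intro i _
    rw [card_EE]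
    have hyi := (hy0 i).ne'
    rcases le_or_gt (t i) (m i) with h | h
    · have e1 : (2 : ℝ) ^ (m i) = 2 ^ (m i - t i) * 2 ^ (t i) := by
        rw [← pow_add]; congr 1; omega
      push_cast
      rw [e1, mul_pow]
      field_simp
    · rw [Nat.choose_eq_zero_of_lt h]
      simp
  rw [hEcard] at hsum
  have h5 := hsum.trans hmain
  rw [← hIcard]
  have h6 : (#I : ℝ) * ∏ i, (((m i).choose (t i) : ℝ) * (((P i).card - m i).choose (t i) : ℝ) /
      (2 * y i) ^ (t i)) ≤ (#I : ℝ) * (V + 3 * (q : ℝ) ^ (-(1 / 2 : ℝ)) * #I *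
        (Fintype.card (ann H) : ℝ) + #I * W / (Fintype.card H : ℝ)) := by
    refine h5.trans (le_of_eq ?_)
    ring
  exact le_of_mul_le_mul_left h6 hIpos

end

theorem core_W {h δ : ℝ} (hh : 0 < h) (hh1 : h ≤ 1 / 100) (hδ : 0 < δ) (D0 : ℝ) :
    ∃ X0 : ℝ, ∀ (q : ℕ) [Fact q.Prime], X0 ≤ Real.log q → D0 ≤ FF (Real.log q) ∧
      ∀ H : Subgroup (DirichletCharacter ℂ q), (q : ℝ) ^ (1 / 2 + δ) ≤ (Nat.card H : ℝ) → ∀ V : ℝ, 0 ≤ V → ∀ W : ℝ, 0 ≤ W →
        ∑ χ : H, (if V < ‖DirichletCharacter.LFunction (χ : DirichletCharacter ℂ q) (1 / 2)‖ then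
          ‖DirichletCharacter.LFunction (χ : DirichletCharacter ℂ q) (1 / 2)‖ else 0) ≤ W →
        Real.exp (Real.sqrt (2 * δ) * (1 - 10 * h) * FF (Real.log q)) ≤ V + 3 + (q : ℝ) ^ δ * W / (Fintype.card H : ℝ) := by
  obtain ⟨Y, hY1, hY⟩ := primes_interval h hh (by linarith)
  set c : ℝ := δ / (h + 2 * h ^ 2) with hc
  set c1 : ℝ := (1 - 3 * h) * (h / (1 + h)) * c / 2 with hc1
  set C5 : ℝ := 16 * Real.exp 1 / (c * h ^ 3) with hC5
  have hc0 : 0 < c := by positivity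
  have h3h : 0 < 1 - 3 * h := by linarith
  have hc10 : 0 < c1 := by positivity
  obtain ⟨X0, hX0⟩ := eventually_atTop.1 (facts h c c1 C5 Y D0 hh (by linarith) hc0 hc10)
  refine ⟨X0, fun q _ hq => ?_⟩
  have F := hX0 (Real.log q) hq
  refine ⟨F.f13, fun H hH V hV0 W hW0 hW => ?_⟩
  set x := Real.log q with hx
  have hq0 : (0 : ℝ) < q := by exact_mod_cast (Nat.Prime.pos Fact.out : 0 < q)
  have hexp : Real.exp x = q := Real.exp_log hq0
  have hL : 0 < Real.log x := by linarith [F.f1']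
  have hx0 : 0 < x := by linarith [F.f1'']
  have hex : ∀ i : Fin (KK h x), ∃ P ⊆ (Ioc ⌊yy0 h x (i + 1)⌋₊ ⌊(1 + h) * yy0 h x (i + 1)⌋₊).filter
      Nat.Prime, P.card = nn h x (i + 1) := fun i =>
    Finset.exists_subset_card_eq (blk_primes hh hh1 F hY (by omega) (fin_le F i))
  choose P hPsub hPcard using hex
  have hmemP : ∀ i, ∀ p ∈ P i, (⌊yy0 h x (i + 1)⌋₊ < p ∧ p ≤ ⌊(1 + h) * yy0 h x (i + 1)⌋₊) ∧ p.Prime := by
    intro i p hp
    have := hPsub i hp
    rw [mem_filter, mem_Ioc] at this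
    exact this
  have hy0 : ∀ i : Fin (KK h x), 0 < (1 + h) * yy0 h x (i + 1) := by
    intro i; unfold yy0; positivity
  have hy : ∀ i : Fin (KK h x), ∀ p ∈ P i, (p : ℝ) ≤ (1 + h) * yy0 h x (i + 1) := by
    intro i p hp
    exact (Nat.le_floor_iff (hy0 i).le).1 (hmemP i p hp).1.2
  have hlt : ∀ i, ∀ p ∈ P i, p < q := by
    intro i p hp
    have h1 := (hy i p hp).trans (y_le hh hh1 F (fin_le F i))
    have h2 : Real.exp (2 * Real.log x) < Real.exp x := by
      rw [Real.exp_lt_exp]; exact F.f11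
    rw [hexp] at h2
    exact_mod_cast h1.trans_lt h2
  have hcop : ∀ i, ∀ p ∈ P i, p.Coprime q := by
    intro i p hp
    exact (Nat.coprime_primes (hmemP i p hp).2 Fact.out).2 (hlt i p hp).ne
  have hdis' : ∀ i j : Fin (KK h x), i < j → Disjoint (P i) (P j) := by
    intro i j hij
    rw [disjoint_left]
    intro p hp hp'
    have h1 := (hmemP i p hp).1.2
    have h2 := (hmemP j p hp').1.1
    have h3 : ⌊(1 + h) * yy0 h x (i + 1)⌋₊ ≤ ⌊yy0 h x (j + 1)⌋₊ := by
      apply Nat.floor_le_floor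
      unfold yy0
      have h4 : (1 + h) ^ ((i : ℕ) + 2) ≤ (1 + h) ^ ((j : ℕ) + 1) := by
        apply pow_le_pow_right₀ (by linarith)
        have : (i : ℕ) < j := hij
        omega
      calc (1 + h) * (x * Real.log x * (1 + h) ^ ((i : ℕ) + 1)) =
            x * Real.log x * (1 + h) ^ ((i : ℕ) + 2) := by ring
        _ ≤ x * Real.log x * (1 + h) ^ ((j : ℕ) + 1) := mul_le_mul_of_nonneg_left h4 (by positivity)
    omega
  have hdis : ∀ i j : Fin (KK h x), i ≠ j → Disjoint (P i) (P j) := by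
    intro i j hij
    rcases lt_or_gt_of_ne hij with h1 | h1
    · exact hdis' i j h1
    · exact (hdis' j i h1).symm
  have hmain := res_blocks_W H P (fun i => mm c x (i + 1)) (fun i => tt c1 x (i + 1))
    (fun i => (1 + h) * yy0 h x (i + 1)) (fun i p hp => (hmemP i p hp).2) hcop hdis hy0 hy
    (fun i => by
      rw [hPcard i]
      have := mm_add_tt_le hh hh1 hc0 F (k := i + 1) (by omega) (fin_le F i)
      omega)
    (by rw [← hexp]; exact prod_lab hh hh1 F) V hV0 W hW hW0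
  simp only [hPcard] at hmain
  have hlow := prod_low hh hh1 hc0 hc1 F
  have hent := prod_ent (δ := δ) hh hh1 hc0 (by rw [hc]; field_simp) hC5 F
  have hann := card_ann_le H (1 / 2 + δ) hH
  have hE : Real.exp (δ * x) = (q : ℝ) ^ δ := by
    rw [Real.rpow_def_of_pos hq0, mul_comm]
  rw [hE] at hent
  have hthree : 3 * (q : ℝ) ^ (-(1 / 2 : ℝ)) * (∏ i : Fin (KK h x), (((nn h x (i + 1)).choose
      (mm c x (i + 1)) : ℝ) * 2 ^ (mm c x (i + 1)))) * (Fintype.card (ann H) : ℝ) ≤ 3 := by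
    calc _ ≤ 3 * (q : ℝ) ^ (-(1 / 2 : ℝ)) * (q : ℝ) ^ δ * (q : ℝ) ^ (1 - (1 / 2 + δ)) := by
          apply mul_le_mul _ hann (by positivity) (by positivity)
          exact mul_le_mul_of_nonneg_left hent (by positivity)
      _ = 3 := by
          rw [mul_assoc, mul_assoc, ← Real.rpow_add hq0, ← Real.rpow_add hq0]
          have : -(1 / 2 : ℝ) + (δ + (1 - (1 / 2 + δ))) = 0 := by ring
          rw [this, Real.rpow_zero, mul_one]
  have h1 := hlow.trans hmain
  have hWp : (∏ i : Fin (KK h x), (((nn h x (i + 1)).choose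
      (mm c x (i + 1)) : ℝ) * 2 ^ (mm c x (i + 1)))) * W / (Fintype.card H : ℝ) ≤ (q : ℝ) ^ δ * W / (Fintype.card H : ℝ) :=
    div_le_div_of_nonneg_right (mul_le_mul_of_nonneg_right hent hW0) (Nat.cast_nonneg _)
  have h2 : Real.exp (2 * (1 - h) ^ 2 * (bb c1 x * Real.log (Real.log x))) ≤ V + 3 + (q : ℝ) ^ δ * W / (Fintype.card H : ℝ) := by
    refine h1.trans ?_
    linarith
  refine le_trans ?_ h2
  rw [Real.exp_le_exp, bb_FF hc10.le F, ← mul_assoc]
  apply mul_le_mul_of_nonneg_right (const_ineq hh hh1 hδ hc hc1) (Real.sqrt_nonneg _)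

end Pool.Agent.J4.H37.MC
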