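import Mathlib
import Pool.Agent.R311.RES.B6
import Pool.Agent.J4.H37.MC.M1

/-! The resonance method on a coset of characters, with the number of the large values. The proofs follow
`Pool.Agent.R311.RES` (`B2`, `B3`, `B6`). -/

set_option autoImplicit false

namespace Pool.Agent.J4.H37.MC
open Finset Pool.Agent.R311.RES Filter Topology
open scoped Classical

section
variable {α β : Type*} {q : ℕ} [Fact q.Prime]

lemma coset_first_W (H : Subgroup (DirichletCharacter ℂ q)) (χ₀ : DirichletCharacter ℂ q)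
    (I : Finset α) (π : α → (ZMod q)ˣ) (V : ℝ) (hV0 : 0 ≤ V) (W : ℝ)
    (hW : ∑ ψ : H, (if V < ‖DirichletCharacter.LFunction (χ₀ * (ψ : DirichletCharacter ℂ q)) (1 / 2)‖ then
      ‖DirichletCharacter.LFunction (χ₀ * (ψ : DirichletCharacter ℂ q)) (1 / 2)‖ else 0) ≤ W) :
    (∑ a : (ZMod q)ˣ, hzv q a * ∑ z ∈ prs H I π a,
        χ₀ ((a * π z.1 * (π z.2)⁻¹ : (ZMod q)ˣ) : ZMod q)).re ≤ V * #(prs H I π 1) + (#I : ℝ) ^ 2 * W / (Fintype.card H : ℝ) := by
  have h1 : ∑ ψ : H, ((‖R2 I π (χ₀ * (ψ : DirichletCharacter ℂ q))‖ ^ 2 : ℝ) : ℂ) *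
      DirichletCharacter.LFunction (χ₀ * (ψ : DirichletCharacter ℂ q)) (1 / 2) =
      (Fintype.card H : ℂ) * ∑ a : (ZMod q)ˣ, hzv q a * ∑ z ∈ prs H I π a,
        χ₀ ((a * π z.1 * (π z.2)⁻¹ : (ZMod q)ˣ) : ZMod q) := by
    have h2 : ∀ ψ : H, ((‖R2 I π (χ₀ * (ψ : DirichletCharacter ℂ q))‖ ^ 2 : ℝ) : ℂ) *
      DirichletCharacter.LFunction (χ₀ * (ψ : DirichletCharacter ℂ q)) (1 / 2) =
      ∑ a : (ZMod q)ˣ, hzv q a * (((‖R2 I π (χ₀ * (ψ : DirichletCharacter ℂ q))‖ ^ 2 : ℝ) : ℂ) *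
        (χ₀ * (ψ : DirichletCharacter ℂ q)) (a : ZMod q)) := by
      intro ψ
      rw [L_half, Finset.mul_sum]
      apply Finset.sum_congr rfl
      intro a _
      ring
    rw [Finset.sum_congr rfl (fun ψ _ => h2 ψ), Finset.sum_comm, Finset.mul_sum]
    apply Finset.sum_congr rfl
    intro a _
    rw [← Finset.mul_sum, coset_moment]
    ring
  have hR : ∀ χ : DirichletCharacter ℂ q, ‖R2 I π χ‖ ≤ #I := by
    intro χ
    refine (norm_sum_le _ _).trans ?_
    rw [Finset.card_eq_sum_ones]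
    push_cast
    exact Finset.sum_le_sum fun g _ => DirichletCharacter.norm_le_one χ _
  have h3 : ‖∑ ψ : H, ((‖R2 I π (χ₀ * (ψ : DirichletCharacter ℂ q))‖ ^ 2 : ℝ) : ℂ) *
      DirichletCharacter.LFunction (χ₀ * (ψ : DirichletCharacter ℂ q)) (1 / 2)‖ ≤
      V * ((Fintype.card H : ℝ) * #(prs H I π 1)) + (#I : ℝ) ^ 2 * W := by
    refine le_trans ?_ (add_le_add (mul_le_mul_of_nonneg_left (coset_second H χ₀ I π) hV0) (mul_le_mul_of_nonneg_left hW (sq_nonneg _)))
    rw [Finset.mul_sum, Finset.mul_sum, ← Finset.sum_add_distrib]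
    refine (norm_sum_le _ _).trans (Finset.sum_le_sum fun ψ _ => ?_)
    rw [norm_mul, Complex.norm_real, Real.norm_of_nonneg (by positivity), mul_comm]
    have hRχ : ‖R2 I π (χ₀ * (ψ : DirichletCharacter ℂ q))‖ ^ 2 ≤ (#I : ℝ) ^ 2 := pow_le_pow_left₀ (norm_nonneg _) (hR _) 2
    split_ifs with hc
    · have h5 : ‖DirichletCharacter.LFunction (χ₀ * (ψ : DirichletCharacter ℂ q)) (1 / 2)‖ * ‖R2 I π (χ₀ * (ψ : DirichletCharacter ℂ q))‖ ^ 2 ≤
          (#I : ℝ) ^ 2 * ‖DirichletCharacter.LFunction (χ₀ * (ψ : DirichletCharacter ℂ q)) (1 / 2)‖ := by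
        rw [mul_comm]
        exact mul_le_mul_of_nonneg_right hRχ (norm_nonneg _)
      have h6 : 0 ≤ V * ‖R2 I π (χ₀ * (ψ : DirichletCharacter ℂ q))‖ ^ 2 := mul_nonneg hV0 (by positivity)
      linarith
    · rw [mul_zero, add_zero]
      exact mul_le_mul_of_nonneg_right (not_lt.1 hc) (by positivity)
  rw [h1, norm_mul, Complex.norm_natCast] at h3
  have hH : (0 : ℝ) < Fintype.card H := by
    have h6 : 0 < Fintype.card H := Fintype.card_pos
    exact_mod_cast h6
  have h4 : (Fintype.card H : ℝ) * ‖∑ a : (ZMod q)ˣ, hzv q a * ∑ z ∈ prs H I π a,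
        χ₀ ((a * π z.1 * (π z.2)⁻¹ : (ZMod q)ˣ) : ZMod q)‖ ≤
      (Fintype.card H : ℝ) * (V * #(prs H I π 1) + (#I : ℝ) ^ 2 * W / (Fintype.card H : ℝ)) := by
    calc _ ≤ _ := h3
      _ = _ := by field_simp
  exact (Complex.re_le_norm _).trans (le_of_mul_le_mul_left h4 hH)

theorem coset_ineq_W (H : Subgroup (DirichletCharacter ℂ q)) (χ₀ : DirichletCharacter ℂ q)
    (I : Finset α) (π : α → (ZMod q)ˣ) (num den : α → ℕ) (hnum0 : ∀ i ∈ I, 0 < num i)
    (hden0 : ∀ i ∈ I, 0 < den i)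
    (hπ : ∀ i ∈ I, (num i : ZMod q) = (π i : ZMod q) * (den i : ZMod q))
    (hden : ∀ i ∈ I, (den i : ZMod q) ≠ 0)
    (V : ℝ) (hV0 : 0 ≤ V) (W : ℝ)
    (hW : ∑ ψ : H, (if V < ‖DirichletCharacter.LFunction (χ₀ * (ψ : DirichletCharacter ℂ q)) (1 / 2)‖ then
      ‖DirichletCharacter.LFunction (χ₀ * (ψ : DirichletCharacter ℂ q)) (1 / 2)‖ else 0) ≤ W) :
    ∑ a : (ZMod q)ˣ, ((a : ZMod q).val : ℝ) ^ (-(1 / 2 : ℝ)) * #(exa I num den a) ≤
      V * #(prs H I π 1) + (#I : ℝ) ^ 2 * W / (Fintype.card H : ℝ) + 3 * (q : ℝ) ^ (-(1 / 2 : ℝ)) * (#I : ℝ) ^ 2 +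
      2 * ∑ a : (ZMod q)ˣ, ((a : ZMod q).val : ℝ) ^ (-(1 / 2 : ℝ)) * #(offp H I π num den a) := by
  have h1 := coset_first_W H χ₀ I π V hV0 W hW
  have h2 : ∀ a : (ZMod q)ˣ, ((a : ZMod q).val : ℝ) ^ (-(1 / 2 : ℝ)) * #(exa I num den a) -
      3 * (q : ℝ) ^ (-(1 / 2 : ℝ)) * #(exa I num den a) -
      2 * (((a : ZMod q).val : ℝ) ^ (-(1 / 2 : ℝ)) * #(offp H I π num den a)) ≤
      (hzv q a * ∑ z ∈ prs H I π a, χ₀ ((a * π z.1 * (π z.2)⁻¹ : (ZMod q)ˣ) : ZMod q)).re := by
    intro a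
    have e1 : ∑ z ∈ prs H I π a, χ₀ ((a * π z.1 * (π z.2)⁻¹ : (ZMod q)ˣ) : ZMod q) =
        (#(exa I num den a) : ℂ) +
        ∑ z ∈ offp H I π num den a, χ₀ ((a * π z.1 * (π z.2)⁻¹ : (ZMod q)ˣ) : ZMod q) := by
      rw [← Finset.sum_filter_add_sum_filter_not (prs H I π a)
        (fun z => (a : ZMod q).val * num z.1 * den z.2 = num z.2 * den z.1)]
      congr 1
      have e2 : (prs H I π a).filter (fun z => (a : ZMod q).val * num z.1 * den z.2 =
          num z.2 * den z.1) = exa I num den a := by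
        ext z
        constructor
        · intro hz
          rw [mem_filter, prs, mem_filter] at hz
          rw [exa, mem_filter]
          exact ⟨hz.1.1, hz.2⟩
        · intro hz
          have h3 := pi_exact I π num den hπ hden a z hz
          rw [exa, mem_filter] at hz
          rw [mem_filter, prs, mem_filter]
          refine ⟨⟨hz.1, ?_⟩, hz.2⟩
          rw [h3]
          exact (ann H).one_mem
      have e3 : ∀ z ∈ exa I num den a,
          χ₀ ((a * π z.1 * (π z.2)⁻¹ : (ZMod q)ˣ) : ZMod q) = 1 := by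
        intro z hz
        rw [pi_exact I π num den hπ hden a z hz, Units.val_one, map_one]
      rw [e2, Finset.sum_congr rfl e3, Finset.sum_const, nsmul_eq_mul, mul_one]
    have hoff : ‖∑ z ∈ offp H I π num den a, χ₀ ((a * π z.1 * (π z.2)⁻¹ : (ZMod q)ˣ) : ZMod q)‖ ≤
        #(offp H I π num den a) := by
      refine (norm_sum_le _ _).trans ?_
      rw [Finset.card_eq_sum_ones]
      push_cast
      apply Finset.sum_le_sum
      intro z _
      exact DirichletCharacter.norm_le_one χ₀ _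
    rw [e1, mul_add, Complex.add_re]
    have h4 : (hzv q a * (#(exa I num den a) : ℂ)).re = (hzv q a).re * #(exa I num den a) := by
      have : ((#(exa I num den a) : ℕ) : ℂ) = (((#(exa I num den a) : ℕ) : ℝ) : ℂ) := by push_cast; rfl
      rw [this, Complex.re_mul_ofReal]
    rw [h4]
    have h5 := mul_le_mul_of_nonneg_right (hzv_re a) (Nat.cast_nonneg (α := ℝ) (#(exa I num den a)))
    have h6 : -(2 * (((a : ZMod q).val : ℝ) ^ (-(1 / 2 : ℝ)) * #(offp H I π num den a))) ≤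
        (hzv q a * ∑ z ∈ offp H I π num den a,
          χ₀ ((a * π z.1 * (π z.2)⁻¹ : (ZMod q)ˣ) : ZMod q)).re := by
      have h7 := Complex.abs_re_le_norm (hzv q a * ∑ z ∈ offp H I π num den a,
          χ₀ ((a * π z.1 * (π z.2)⁻¹ : (ZMod q)ˣ) : ZMod q))
      rw [norm_mul] at h7
      have h8 := mul_le_mul (hzv_norm a) hoff (norm_nonneg _) (by positivity)
      have h9 := neg_le_of_abs_le (h7.trans h8)
      linarith
    linarith
  have h3 := Finset.sum_le_sum (s := univ) (fun a _ => h2 a)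
  rw [← Complex.re_sum] at h3
  have h4 := h3.trans h1
  rw [Finset.sum_sub_distrib, Finset.sum_sub_distrib, ← Finset.mul_sum, ← Finset.mul_sum] at h4
  have h5 := mul_le_mul_of_nonneg_left (sum_exa (q := q) I num den hnum0 hden0)
    (show 0 ≤ 3 * (q : ℝ) ^ (-(1 / 2 : ℝ)) by positivity)
  linarith

theorem coset_T_W (H : Subgroup (DirichletCharacter ℂ q)) (χ₀ : DirichletCharacter ℂ q)
    (I : Finset α) (E : Finset β) (src tgt : β → α) (num den : α → ℕ) (lab : β → ℕ)
    (lu : β → (ZMod q)ˣ) (hs : ∀ e ∈ E, src e ∈ I) (ht : ∀ e ∈ E, tgt e ∈ I)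
    (hlu : ∀ e ∈ E, (lu e : ZMod q).val = lab e)
    (hrel : ∀ e ∈ E, lab e * num (src e) * den (tgt e) = num (tgt e) * den (src e))
    (is : ∀ e ∈ E, ∀ e' ∈ E, lab e = lab e' → src e = src e' → e = e')
    (hnum : ∀ i ∈ I, (num i).Coprime q) (hden : ∀ i ∈ I, (den i).Coprime q)
    (hinj : ∀ i ∈ I, ∀ j ∈ I, num i * den j = num j * den i → i = j)
    (V : ℝ) (hV0 : 0 ≤ V) (W : ℝ)
    (hW : ∑ ψ : H, (if V < ‖DirichletCharacter.LFunction (χ₀ * (ψ : DirichletCharacter ℂ q)) (1 / 2)‖ then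
      ‖DirichletCharacter.LFunction (χ₀ * (ψ : DirichletCharacter ℂ q)) (1 / 2)‖ else 0) ≤ W) (A : ℝ) (hA : 1 ≤ A) :
    ∑ e ∈ E, (lab e : ℝ) ^ (-(1 / 2 : ℝ)) ≤
      V * (#I + Tk I num den (Fintype.card (ann H)) q A) + (#I : ℝ) ^ 2 * W / (Fintype.card H : ℝ) +
      3 * (q : ℝ) ^ (-(1 / 2 : ℝ)) * (#I : ℝ) ^ 2 +
      2 * (Tk I num den (Fintype.card (ann H)) q A +
        A ^ (-(1 / 2 : ℝ)) * ((#I : ℝ) ^ 2 * (Fintype.card (ann H) : ℝ))) := by
  have hq2 : 1 < q := Nat.Prime.one_lt Fact.out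
  have pos_of : ∀ n : ℕ, n.Coprime q → 0 < n := by
    intro n hn
    rcases Nat.eq_zero_or_pos n with h | h
    · subst h
      rw [Nat.coprime_zero_left] at hn
      omega
    · exact h
  have ne_of : ∀ n : ℕ, n.Coprime q → (n : ZMod q) ≠ 0 := by
    intro n hn h
    rw [ZMod.natCast_eq_zero_iff] at h
    have := Nat.Coprime.eq_one_of_dvd hn.symm h
    omega
  set π : α → (ZMod q)ˣ := fun i => un q (num i) * (un q (den i))⁻¹ with hπ
  have hπ' : ∀ i ∈ I, (num i : ZMod q) = (π i : ZMod q) * (den i : ZMod q) := by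
    intro i hi
    have h1 : π i * un q (den i) = un q (num i) := by
      simp only [hπ]
      rw [inv_mul_cancel_right]
    have h2 := congrArg Units.val h1
    rw [Units.val_mul, un_val (hden i hi), un_val (hnum i hi)] at h2
    exact h2.symm
  have h1 := coset_ineq_W H χ₀ I π num den (fun i hi => pos_of _ (hnum i hi))
    (fun i hi => pos_of _ (hden i hi)) hπ' (fun i hi => ne_of _ (hden i hi)) V hV0 W hW
  have h2 := sum_edges (q := q) I E src tgt num den lab lu hs ht hlu hrel is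
  have h3 := sum_off H I π num den hπ' A hA
  have h4 := mul_le_mul_of_nonneg_left (prs_one H I π num den hπ' hinj A hA) hV0
  linarith

end

theorem core3_W {h δ β η : ℝ} (hh : 0 < h) (hh1 : h ≤ 1 / 100) (hβ1 : β ≤ 1) (hβ0 : 0 < β)
    (hη : 0 < η) (hη1 : η ≤ 1 / 4) (hδ : 0 < δ) (hδβ : δ ≤ 3 * β / 2 - 1 - 2 * η) (D0 : ℝ) :
    ∃ X0 : ℝ, ∀ Q : ℕ, X0 ≤ Real.log Q → D0 ≤ FF (Real.log Q) ∧
      ∃ Bad : Finset ℕ, (#Bad : ℝ) ≤ (Q : ℝ) ^ (1 - η) ∧
      ∀ (q : ℕ) [Fact q.Prime], (Q : ℝ) ^ (1 - η) ≤ q → q ≤ Q → q ∉ Bad →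
      ∀ H : Subgroup (DirichletCharacter ℂ q), (q : ℝ) ^ β ≤ (Nat.card H : ℝ) →
      ∀ χ₀ : DirichletCharacter ℂ q, ∀ V : ℝ, 0 ≤ V → ∀ W : ℝ, 0 ≤ W →
        ∑ ψ : H, (if V < ‖DirichletCharacter.LFunction (χ₀ * (ψ : DirichletCharacter ℂ q)) (1 / 2)‖ then
          ‖DirichletCharacter.LFunction (χ₀ * (ψ : DirichletCharacter ℂ q)) (1 / 2)‖ else 0) ≤ W →
        Real.exp (Real.sqrt (2 * δ) * (1 - 10 * h) * FF (Real.log Q)) ≤ 2 * V + 7 + (Q : ℝ) ^ δ * W / (Fintype.card H : ℝ) := by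
  obtain ⟨Y, hY1, hY⟩ := primes_interval h hh (by linarith)
  set c : ℝ := δ / (h + 2 * h ^ 2) with hc
  set c1 : ℝ := (1 - 3 * h) * (h / (1 + h)) * c / 2 with hc1
  set C5 : ℝ := 16 * Real.exp 1 / (c * h ^ 3) with hC5
  have hc0 : 0 < c := by positivity
  have h3h : 0 < 1 - 3 * h := by linarith
  have hc10 : 0 < c1 := by positivity
  have g3 : ∀ᶠ x : ℝ in atTop, 2 * (1 + 8 * c * Real.log x) ≤ (1 - η) * (η * x) := by
    have hpos : 0 < (1 - η) * η := mul_pos (by linarith) hη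
    filter_upwards [log_small ((1 - η) * η / (32 * c)) (by positivity),
      eventually_ge_atTop (4 / ((1 - η) * η)), eventually_ge_atTop (1 : ℝ)] with x e1 e2 e3
    rw [div_le_iff₀ hpos] at e2
    have e4 : 16 * c * Real.log x ≤ (1 - η) * η * x / 2 := by
      calc 16 * c * Real.log x ≤ 16 * c * ((1 - η) * η / (32 * c) * x) :=
            mul_le_mul_of_nonneg_left e1 (by positivity)
        _ = _ := by field_simp; ring
    linarith
  obtain ⟨X0, hX0⟩ := eventually_atTop.1 ((facts h c c1 C5 Y D0 hh (by linarith) hc0 hc10).and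
    ((facts h c (4 * c1) C5 Y D0 hh (by linarith) hc0 (by positivity)).and
    ((log_small (1 / 8) (by norm_num)).and g3)))
  refine ⟨X0, fun Q hQ => ?_⟩
  obtain ⟨F, F4, g2, g3'⟩ := hX0 (Real.log Q) hQ
  refine ⟨F.f13, ?_⟩
  set x := Real.log Q with hx
  have hx0 : 0 < x := by linarith [F.f1'']
  have hQ0 : (0 : ℝ) < Q := by
    by_contra hcon
    have : (Q : ℝ) = 0 := le_antisymm (not_lt.1 hcon) (Nat.cast_nonneg _)
    rw [hx, this, Real.log_zero] at hx0
    exact lt_irrefl _ hx0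
  have hexp : Real.exp x = Q := Real.exp_log hQ0
  have hrp : ∀ r : ℝ, (Q : ℝ) ^ r = Real.exp (r * x) := by
    intro r
    rw [Real.rpow_def_of_pos hQ0, mul_comm]
  have hL : 0 < Real.log x := by linarith [F.f1']
  have hb4 : bb (4 * c1) x = 2 * bb c1 x := by
    unfold bb
    rw [show 4 * c1 * x / (Real.log x * Real.log (Real.log x)) =
      2 ^ 2 * (c1 * x / (Real.log x * Real.log (Real.log x))) by ring,
      Real.sqrt_mul (by norm_num), Real.sqrt_sq (by norm_num)]
  have hf6 := F4.f6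
  rw [hb4] at hf6
  -- the primes
  have hex : ∀ i : Fin (KK h x), ∃ P ⊆ (Ioc ⌊yy0 h x (i + 1)⌋₊ ⌊(1 + h) * yy0 h x (i + 1)⌋₊).filter
      Nat.Prime, P.card = nn h x (i + 1) := fun i =>
    Finset.exists_subset_card_eq (blk_primes hh hh1 F hY (by omega) (fin_le F i))
  choose P hPsub hPcard using hex
  have hmemP : ∀ i, ∀ p ∈ P i, (⌊yy0 h x (i + 1)⌋₊ < p ∧ p ≤ ⌊(1 + h) * yy0 h x (i + 1)⌋₊) ∧ p.Prime := by
    intro i p hp
    have := hPsub i hp
    rw [mem_filter, mem_Ioc] at this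
    exact this
  have hpr : ∀ i, ∀ p ∈ P i, p.Prime := fun i p hp => (hmemP i p hp).2
  have hy0 : ∀ i : Fin (KK h x), 0 < (1 + h) * yy0 h x (i + 1) := by
    intro i; unfold yy0; positivity
  have hy : ∀ i : Fin (KK h x), ∀ p ∈ P i, (p : ℝ) ≤ (1 + h) * yy0 h x (i + 1) := by
    intro i p hp
    exact (Nat.le_floor_iff (hy0 i).le).1 (hmemP i p hp).1.2
  have hy1 : ∀ i : Fin (KK h x), 1 ≤ (1 + h) * yy0 h x (i + 1) := by
    intro i
    unfold yy0
    have h1 : 1 ≤ x * Real.log x := by nlinarith [F.f1', F.f1'']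
    have h2 : 1 ≤ (1 + h) ^ ((i : ℕ) + 1) := one_le_pow₀ (by linarith)
    have h3 : 1 ≤ x * Real.log x * (1 + h) ^ ((i : ℕ) + 1) := by nlinarith
    nlinarith
  have hdis' : ∀ i j : Fin (KK h x), i < j → Disjoint (P i) (P j) := by
    intro i j hij
    rw [disjoint_left]
    intro p hp hp'
    have h1 := (hmemP i p hp).1.2
    have h2 := (hmemP j p hp').1.1
    have h3 : ⌊(1 + h) * yy0 h x (i + 1)⌋₊ ≤ ⌊yy0 h x (j + 1)⌋₊ := by
      apply Nat.floor_le_floor
      unfold yy0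
      have h4 : (1 + h) ^ ((i : ℕ) + 2) ≤ (1 + h) ^ ((j : ℕ) + 1) := by
        apply pow_le_pow_right₀ (by linarith)
        have : (i : ℕ) < j := hij
        omega
      calc (1 + h) * (x * Real.log x * (1 + h) ^ ((i : ℕ) + 1)) =
            x * Real.log x * (1 + h) ^ ((i : ℕ) + 2) := by ring
        _ ≤ x * Real.log x * (1 + h) ^ ((j : ℕ) + 1) := mul_le_mul_of_nonneg_left h4 (by positivity)
    omega
  have hdis : ∀ i j : Fin (KK h x), i ≠ j → Disjoint (P i) (P j) := by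
    intro i j hij
    rcases lt_or_gt_of_ne hij with h1 | h1
    · exact hdis' i j h1
    · exact (hdis' j i h1).symm
  set m : Fin (KK h x) → ℕ := fun i => mm c x (i + 1) with hm
  set t : Fin (KK h x) → ℕ := fun i => tt c1 x (i + 1) with ht
  set y : Fin (KK h x) → ℝ := fun i => (1 + h) * yy0 h x (i + 1) with hydef
  have hmP : ∀ i, m i ≤ (P i).card := by
    intro i
    rw [hPcard i]
    have := mm_add_tt_le hh hh1 hc0 F (k := i + 1) (by omega) (fin_le F i)
    simp only [hm]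
    omega
  set I := II P m with hI
  have hIpos : (0 : ℝ) < #I := II_pos P m hmP
  have hIne : I.Nonempty := by
    rw [← Finset.card_pos]
    exact_mod_cast hIpos
  have hIle : (#I : ℝ) ≤ Real.exp (δ * x) := by
    rw [hI, card_II]
    simp only [hPcard]
    exact prod_ent (δ := δ) hh hh1 hc0 (by rw [hc]; field_simp) hC5 F
  have hmemI : ∀ z ∈ I, ∀ i, z i ∈ X (P i) (m i) := fun z hz => Fintype.mem_piFinset.1 hz
  -- the exceptional set
  set A : ℝ := (Q : ℝ) ^ β with hA
  set M : ℕ := ⌊(Q : ℝ) ^ (1 - β)⌋₊ with hM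
  set Y' : ℝ := (Q : ℝ) ^ (1 - η) with hY'
  set S : Finset ℕ := (Icc 1 Q).filter (fun q => q.Prime ∧ Y' ≤ q) with hS
  set B : ℝ := x + 8 * c * x * Real.log x with hB
  have hB0 : 0 ≤ B := by positivity
  have hQ1 : (1 : ℝ) ≤ Q := by rw [← hexp]; exact Real.one_le_exp hx0.le
  have hA1 : 1 ≤ A := Real.one_le_rpow hQ1 hβ0.le
  have hAle : A ≤ Real.exp x := by
    rw [hA, hrp, Real.exp_le_exp]
    nlinarith
  have hlogY' : Real.log Y' = (1 - η) * x := by rw [hY', hrp, Real.log_exp]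
  have hY'1 : 1 < Y' := by
    rw [hY', hrp]
    apply Real.one_lt_exp_iff.2
    apply mul_pos (by linarith) hx0
  have hbad := few_exceptional S (fun p hp => by rw [hS, mem_filter] at hp; exact hp.2.1) Y' B
    hY'1 hB0 (fun p hp => by rw [hS, mem_filter] at hp; exact hp.2.2) I hIne
    (fun z => numB z) (fun z => denB z) M A (by linarith) (by
      intro n hn i hi j hj
      rw [mem_Icc] at hn
      have hnA : (n : ℝ) ≤ Real.exp x := by
        refine le_trans ?_ hAle
        exact (Nat.le_floor_iff (by linarith)).1 hn.2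
      have s1 := (numB_le P m y hy1 hy i (hmemI i hi)).1
      have s2 := (numB_le P m y hy1 hy j (hmemI j hj)).2
      have s3 := prod_size hh hh1 hc0 F
      push_cast
      have e1 : Real.exp B = Real.exp x * Real.exp (4 * c * x * Real.log x) *
          Real.exp (4 * c * x * Real.log x) := by
        rw [← Real.exp_add, ← Real.exp_add]
        congr 1
        rw [hB]; ring
      rw [e1]
      apply mul_le_mul _ (s2.trans s3) (by positivity) (by positivity)
      exact mul_le_mul hnA (s1.trans s3) (by positivity) (by positivity))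
  refine ⟨S.filter (fun p => BadT I (fun z => numB z) (fun z => denB z) M A p), ?_, ?_⟩
  · refine hbad.trans ?_
    have hMle : (M : ℝ) ≤ Real.exp ((1 - β) * x) := by
      rw [← hrp]
      exact Nat.floor_le (by positivity)
    have hsA : Real.sqrt A = Real.exp (β / 2 * x) := by
      rw [hA, hrp, Real.sqrt_eq_rpow, ← Real.exp_mul]
      congr 1
      ring
    rw [hsA, hlogY', hY', hrp]
    have e1 : B / ((1 - η) * x) = (1 + 8 * c * Real.log x) / (1 - η) := by
      rw [hB]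
      have : 1 - η ≠ 0 := by linarith
      field_simp
    have e2 : 2 * ((1 + 8 * c * Real.log x) / (1 - η)) ≤ Real.exp (η * x) := by
      rw [← mul_div_assoc, div_le_iff₀ (by linarith)]
      have h1 := Real.add_one_le_exp (η * x)
      have h2 : (1 - η) * (η * x) ≤ (1 - η) * Real.exp (η * x) :=
        mul_le_mul_of_nonneg_left (by linarith) (by linarith)
      linarith
    rw [e1]
    have hc8 : 0 ≤ (1 + 8 * c * Real.log x) / (1 - η) := by
      apply div_nonneg (by positivity) (by linarith)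
    calc 2 * Real.exp (β / 2 * x) * (#I : ℝ) * ((1 + 8 * c * Real.log x) / (1 - η)) * (M : ℝ) ^ 2 =
          (2 * ((1 + 8 * c * Real.log x) / (1 - η))) * (Real.exp (β / 2 * x) * (#I : ℝ) * (M : ℝ) ^ 2) := by
          ring
      _ ≤ Real.exp (η * x) * (Real.exp (β / 2 * x) * Real.exp (δ * x) *
          (Real.exp ((1 - β) * x)) ^ 2) := by
          apply mul_le_mul e2 _ (by positivity) (Real.exp_pos _).le
          apply mul_le_mul _ (pow_le_pow_left₀ (Nat.cast_nonneg _) hMle 2) (by positivity)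
            (by positivity)
          exact mul_le_mul_of_nonneg_left hIle (Real.exp_pos _).le
      _ = Real.exp ((η + β / 2 + δ + 2 * (1 - β)) * x) := by
          rw [← Real.exp_nat_mul, ← Real.exp_add, ← Real.exp_add, ← Real.exp_add]
          congr 1
          push_cast
          ring
      _ ≤ Real.exp ((1 - η) * x) := by
          rw [Real.exp_le_exp]
          apply mul_le_mul_of_nonneg_right _ hx0.le
          linarith
  · intro q _ hqY hqQ hqbad H hH χ₀ V hV0 W hW0 hW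
    have hqS : q ∈ S := by
      rw [hS, mem_filter, mem_Icc]
      exact ⟨⟨(Nat.Prime.pos Fact.out : 0 < q), hqQ⟩, Fact.out, hqY⟩
    have hq0 : (0 : ℝ) < q := by linarith
    have hqQ' : (q : ℝ) ≤ Q := by exact_mod_cast hqQ
    set κ := Fintype.card (ann H) with hκ
    have hκ1 : 1 ≤ κ := Fintype.card_pos
    have hκQ : (κ : ℝ) ≤ (Q : ℝ) ^ (1 - β) := by
      refine (card_ann_le H β hH).trans ?_
      exact Real.rpow_le_rpow hq0.le hqQ' (by linarith)
    have hT : Tk I (fun z => numB z) (fun z => denB z) κ q A ≤ #I := by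
      by_contra hcon
      apply hqbad
      rw [mem_filter]
      refine ⟨hqS, κ, ?_, not_le.1 hcon⟩
      rw [mem_Icc]
      exact ⟨hκ1, Nat.le_floor hκQ⟩
    have hYexp : Real.exp (x / 2) ≤ q := by
      refine le_trans ?_ hqY
      rw [hY', hrp, Real.exp_le_exp]
      nlinarith
    have hlt : ∀ i, ∀ p ∈ P i, p < q := by
      intro i p hp
      have h1 := (hy i p hp).trans (y_le hh hh1 F (fin_le F i))
      have h2 : Real.exp (2 * Real.log x) < Real.exp (x / 2) := by
        rw [Real.exp_lt_exp]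
        linarith
      exact_mod_cast h1.trans_lt (h2.trans_le hYexp)
    have hcop : ∀ i, ∀ p ∈ P i, p.Coprime q := by
      intro i p hp
      exact (Nat.coprime_primes (hmemP i p hp).2 Fact.out).2 (hlt i p hp).ne
    have memE : ∀ e ∈ EI P m t, ∀ i, e i ∈ EE (P i) (m i) (t i) :=
      fun e he => Fintype.mem_piFinset.1 he
    have hlabq : ∀ e ∈ EI P m t, labN e < q := by
      intro e he
      have h1 := (labN_le P m t y hy e (memE e he)).trans (prod_lab' hh hh1 F)
      have h2 : Real.exp (4 * bb c1 x * (1 + Real.log (Real.log x)) * Real.log x) <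
          Real.exp (x / 2) := by
        rw [Real.exp_lt_exp]
        linarith
      exact_mod_cast h1.trans_lt (h2.trans_le hYexp)
    have hval : ∀ e ∈ EI P m t, ((labG q e : (ZMod q)ˣ) : ZMod q).val = labN e := by
      intro e he
      rw [labG_val P m t hcop e (memE e he), ZMod.val_natCast, Nat.mod_eq_of_lt (hlabq e he)]
    have hmain := coset_T_W H χ₀ I (EI P m t) (fun e i => sr (e i)) (fun e i => tg (e i))
      (fun z => numB z) (fun z => denB z) (fun e => labN e) (labG q)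
      (fun e he => Fintype.mem_piFinset.2 fun i => sr_mem (memE e he i))
      (fun e he => Fintype.mem_piFinset.2 fun i => tg_mem (memE e he i))
      hval (fun e he => rel_blocks P m t e (memE e he))
      (fun e he e' he' h1 h2 => by
        funext i
        exact sr_inj (memE e he i) (memE e' he' i)
          (labN_inj P m t hpr hdis e e' (memE e he) (memE e' he') h1 i) (congrFun h2 i))
      (fun i hi => (numB_coprime P m hcop i (hmemI i hi)).1)
      (fun i hi => (numB_coprime P m hcop i (hmemI i hi)).2)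
      (fun i hi j hj h1 => state_inj P m hpr hdis i j (hmemI i hi) (hmemI j hj) h1)
      V hV0 W hW A hA1
    have hlow := (sum_lab_low P m t y hpr hy0 hy).trans hmain
    have hD := prod_low hh hh1 hc0 hc1 F
    simp only [hPcard] at hlow
    rw [← hI] at hlow
    -- bounds of the errors
    have e1 : (q : ℝ) ^ (-(1 / 2 : ℝ)) * #I ≤ 1 := by
      have h1 : (q : ℝ) ^ (-(1 / 2 : ℝ)) ≤ Real.exp (-(1 / 2) * ((1 - η) * x)) := by
        have h2 : (q : ℝ) ^ (-(1 / 2 : ℝ)) ≤ (Y') ^ (-(1 / 2 : ℝ)) :=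
          Real.rpow_le_rpow_of_nonpos (by linarith) hqY (by norm_num)
        refine h2.trans (le_of_eq ?_)
        rw [hY', hrp, ← Real.exp_mul]
        congr 1
        ring
      calc (q : ℝ) ^ (-(1 / 2 : ℝ)) * #I ≤ Real.exp (-(1 / 2) * ((1 - η) * x)) * Real.exp (δ * x) :=
            mul_le_mul h1 hIle (by positivity) (Real.exp_pos _).le
        _ = Real.exp ((-(1 / 2) * (1 - η) + δ) * x) := by rw [← Real.exp_add]; congr 1; ring
        _ ≤ 1 := by
            apply Real.exp_le_one_iff.2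
            apply mul_nonpos_of_nonpos_of_nonneg _ hx0.le
            linarith
    have e2 : A ^ (-(1 / 2 : ℝ)) * (#I * (κ : ℝ)) ≤ 1 := by
      have h1 : A ^ (-(1 / 2 : ℝ)) = Real.exp (-(β / 2) * x) := by
        rw [hA, hrp, ← Real.exp_mul]; congr 1; ring
      rw [hrp] at hκQ
      calc A ^ (-(1 / 2 : ℝ)) * (#I * (κ : ℝ)) ≤
            Real.exp (-(β / 2) * x) * (Real.exp (δ * x) * Real.exp ((1 - β) * x)) := by
            rw [h1]
            apply mul_le_mul_of_nonneg_left _ (Real.exp_pos _).le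
            exact mul_le_mul hIle hκQ (Nat.cast_nonneg _) (Real.exp_pos _).le
        _ = Real.exp ((-(β / 2) + δ + (1 - β)) * x) := by
            rw [← Real.exp_add, ← Real.exp_add]; congr 1; ring
        _ ≤ 1 := by
            apply Real.exp_le_one_iff.2
            apply mul_nonpos_of_nonpos_of_nonneg _ hx0.le
            linarith
    have hfin : (#I : ℝ) * ∏ i : Fin (KK h x), (((mm c x (i + 1)).choose (tt c1 x (i + 1)) : ℝ) *
      ((nn h x (i + 1) - mm c x (i + 1)).choose (tt c1 x (i + 1)) : ℝ) /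
      (2 * ((1 + h) * yy0 h x (i + 1))) ^ (tt c1 x (i + 1))) ≤ #I * (2 * V + 7 + (Q : ℝ) ^ δ * W / (Fintype.card H : ℝ)) := by
      refine hlow.trans ?_
      have a0 : (#I : ℝ) ^ 2 * W / (Fintype.card H : ℝ) ≤ #I * ((Q : ℝ) ^ δ * W / (Fintype.card H : ℝ)) := by
        have hQd : Real.exp (δ * x) = (Q : ℝ) ^ δ := by rw [hrp]
        rw [← hQd]
        calc (#I : ℝ) ^ 2 * W / (Fintype.card H : ℝ) = #I * (#I * W / (Fintype.card H : ℝ)) := by ring
          _ ≤ _ := by
              apply mul_le_mul_of_nonneg_left _ hIpos.le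
              exact div_le_div_of_nonneg_right (mul_le_mul_of_nonneg_right hIle hW0) (Nat.cast_nonneg _)
      have a1 : V * (#I + Tk I (fun z => numB z) (fun z => denB z) κ q A) ≤ V * (2 * #I) :=
        mul_le_mul_of_nonneg_left (by linarith) hV0
      have a2 : 3 * (q : ℝ) ^ (-(1 / 2 : ℝ)) * (#I : ℝ) ^ 2 ≤ 3 * #I := by
        calc _ = 3 * #I * ((q : ℝ) ^ (-(1 / 2 : ℝ)) * #I) := by ring
          _ ≤ 3 * #I * 1 := mul_le_mul_of_nonneg_left e1 (by positivity)
          _ = _ := by ring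
      have a3 : A ^ (-(1 / 2 : ℝ)) * ((#I : ℝ) ^ 2 * (κ : ℝ)) ≤ #I := by
        calc _ = #I * (A ^ (-(1 / 2 : ℝ)) * (#I * (κ : ℝ))) := by ring
          _ ≤ #I * 1 := mul_le_mul_of_nonneg_left e2 hIpos.le
          _ = _ := by ring
      linarith
    have hfin2 := le_of_mul_le_mul_left hfin hIpos
    refine le_trans ?_ (hD.trans hfin2)
    rw [Real.exp_le_exp, bb_FF hc10.le F, ← mul_assoc]
    apply mul_le_mul_of_nonneg_right (const_ineq hh hh1 hδ hc hc1) (Real.sqrt_nonneg _)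

end Pool.Agent.J4.H37.MC
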