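import Mathlib
import Pool.Agent.J4.H37.MC.M2
import Pool.Agent.J4.H37.MC.M3

/-! Many large central values: the final deductions. -/

set_option autoImplicit false

namespace Pool.Agent.J4.H37.MC
open Finset Filter Topology Pool.Agent.R311.RES
open scoped Classical

lemma third_le {q : ℕ} (hq : 1 ≤ q) {c β δ' t μ n D K : ℝ} (hc : 0 < c) (hn0 : 0 ≤ n)
    (hn : n ≤ (q : ℝ) ^ t) (hD0 : 0 ≤ D) (hD : D ≤ (q : ℝ) ^ δ') (hK : c * (q : ℝ) ^ β ≤ K)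
    (hexp : 2 * δ' + t + 1 + 2 * μ ≤ 2 * β) (hg : 4 * (1 + Real.log q) ≤ c ^ 2 * (q : ℝ) ^ (2 * μ)) :
    D * Real.sqrt (n * (4 * q * (1 + Real.log q))) / K ≤ 1 := by
  have hq1 : (1 : ℝ) ≤ q := by exact_mod_cast hq
  have hqp : (0 : ℝ) < q := by linarith
  have hKp : 0 < K := lt_of_lt_of_le (by positivity) hK
  have hlog : 0 ≤ Real.log q := Real.log_nonneg hq1
  rw [div_le_one hKp]
  refine le_trans ?_ hK
  have h1 : Real.sqrt (n * (4 * q * (1 + Real.log q))) ≤ c * (q : ℝ) ^ ((t + 1) / 2 + μ) := by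
    rw [Real.sqrt_le_left (by positivity)]
    have e : (c * (q : ℝ) ^ ((t + 1) / 2 + μ)) ^ 2 = (q : ℝ) ^ t * (q * (c ^ 2 * (q : ℝ) ^ (2 * μ))) := by
      rw [mul_pow, ← Real.rpow_natCast ((q : ℝ) ^ ((t + 1) / 2 + μ)) 2, ← Real.rpow_mul hqp.le]
      have e2 : ((t + 1) / 2 + μ) * ((2 : ℕ) : ℝ) = t + (1 + 2 * μ) := by push_cast; ring
      rw [e2, Real.rpow_add hqp, Real.rpow_add hqp, Real.rpow_one]
      ring
    rw [e]
    apply mul_le_mul hn _ (by positivity) (by positivity)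
    calc 4 * (q : ℝ) * (1 + Real.log q) = q * (4 * (1 + Real.log q)) := by ring
      _ ≤ _ := mul_le_mul_of_nonneg_left hg hqp.le
  calc D * Real.sqrt (n * (4 * q * (1 + Real.log q))) ≤ (q : ℝ) ^ δ' * (c * (q : ℝ) ^ ((t + 1) / 2 + μ)) :=
        mul_le_mul hD h1 (Real.sqrt_nonneg _) (by positivity)
    _ = c * (q : ℝ) ^ (δ' + ((t + 1) / 2 + μ)) := by rw [Real.rpow_add hqp δ']; ring
    _ ≤ c * (q : ℝ) ^ β := by
        apply mul_le_mul_of_nonneg_left _ hc.le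
        exact Real.rpow_le_rpow_of_exponent_le hq1 (by linarith)

lemma growth {c μ : ℝ} (hc : 0 < c) (hμ : 0 < μ) :
    ∀ᶠ q : ℕ in atTop, 4 * (1 + Real.log (q : ℝ)) ≤ c ^ 2 * (q : ℝ) ^ (2 * μ) := by
  have h1 : ∀ᶠ x : ℝ in atTop, ‖Real.log x‖ ≤ (c ^ 2 / 8) * ‖x ^ (2 * μ)‖ :=
    (isLittleO_log_rpow_atTop (r := 2 * μ) (by linarith)).bound (by positivity)
  have h2 : ∀ᶠ x : ℝ in atTop, 8 / c ^ 2 ≤ x ^ (2 * μ) :=
    (tendsto_rpow_atTop (y := 2 * μ) (by linarith)).eventually_ge_atTop _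
  have h3 : ∀ᶠ x : ℝ in atTop, 4 * (1 + Real.log x) ≤ c ^ 2 * x ^ (2 * μ) := by
    filter_upwards [h1, h2, eventually_ge_atTop (1 : ℝ)] with x e1 e2 e3
    have e4 : 0 ≤ x ^ (2 * μ) := by positivity
    rw [Real.norm_of_nonneg (Real.log_nonneg e3), Real.norm_of_nonneg e4] at e1
    rw [div_le_iff₀ (by positivity)] at e2
    nlinarith
  exact tendsto_natCast_atTop_atTop.eventually h3

lemma sqrt_close {a ν ε : ℝ} (hν : 0 ≤ ν) (haν : ν ≤ a) (hε : 0 ≤ ε) (hνε : ν ≤ ε ^ 2) :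
    Real.sqrt a - ε ≤ Real.sqrt (a - ν) := by
  have h1 : Real.sqrt a ≤ Real.sqrt (a - ν) + Real.sqrt ν := by
    rw [Real.sqrt_le_left (by positivity)]
    have h2 := Real.sq_sqrt (show 0 ≤ a - ν by linarith)
    have h3 := Real.sq_sqrt hν
    have h4 : 0 ≤ Real.sqrt (a - ν) * Real.sqrt ν := by positivity
    nlinarith
  have h5 : Real.sqrt ν ≤ ε := by
    rw [Real.sqrt_le_left hε]
    exact hνε
  linarith

lemma exp_gap {A ε F : ℝ} (hA : ε ≤ A) (hF0 : 0 < F) (hF : 20 ≤ ε * F) :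
    2 * Real.exp ((A - ε) * F) + 8 < Real.exp ((A - ε / 2) * F) := by
  have h3 : Real.exp ((A - ε / 2) * F) = Real.exp ((A - ε) * F) * Real.exp (ε / 2 * F) := by
    rw [← Real.exp_add]; congr 1; ring
  have h4 := Real.add_one_le_exp (ε / 2 * F)
  have h5 : 1 ≤ Real.exp ((A - ε) * F) := by
    apply Real.one_le_exp
    apply mul_nonneg (by linarith) hF0.le
  rw [h3]
  nlinarith

lemma ncard_mono {q : ℕ} [NeZero q] (H : Subgroup (DirichletCharacter ℂ q)) (χ₀ : DirichletCharacter ℂ q) {V U : ℝ}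
    (h : U ≤ V) :
    {ψ : DirichletCharacter ℂ q | ψ ∈ H ∧ V < ‖DirichletCharacter.LFunction (χ₀ * ψ) (1 / 2)‖}.ncard ≤
    {ψ : DirichletCharacter ℂ q | ψ ∈ H ∧ U ≤ ‖DirichletCharacter.LFunction (χ₀ * ψ) (1 / 2)‖}.ncard := by
  apply Set.ncard_le_ncard _ (Set.toFinite _)
  rintro ψ ⟨h1, h2⟩
  exact ⟨h1, h.trans h2.le⟩

theorem part1 : ∀ β : ℝ, 1 / 2 < β → β ≤ 1 → ∀ c : ℝ, 0 < c → ∀ θ : ℝ, 0 < θ → θ ≤ 1 → ∀ ε : ℝ, 0 < ε →
    ∃ q₀ : ℕ, ∀ (q : ℕ) [NeZero q], q₀ ≤ q → q.Prime →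
      ∀ H : Subgroup (DirichletCharacter ℂ q), c * (q : ℝ) ^ β ≤ (Nat.card H : ℝ) →
        (q : ℝ) ^ ((2 * β - 1) * (1 - θ) - ε) ≤
          ({χ : DirichletCharacter ℂ q | χ ∈ H ∧ Real.exp ((Real.sqrt ((2 * β - 1) * θ) - ε) *
          Real.sqrt (Real.log q * Real.log (Real.log (Real.log q)) / Real.log (Real.log q))) ≤
            ‖DirichletCharacter.LFunction χ (1 / 2)‖}.ncard : ℝ) := by
  intro β hβ hβ1 c hc θ hθ hθ1 ε hε
  obtain ⟨a, ha⟩ : ∃ a, a = (2 * β - 1) * θ := ⟨_, rfl⟩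
  have hb0 : 0 < 2 * β - 1 := by linarith
  have ha0 : 0 < a := by rw [ha]; positivity
  have hab : a ≤ 2 * β - 1 := by rw [ha]; nlinarith
  have ha1 : a ≤ 1 := by linarith
  have hsa : 0 < Real.sqrt a := Real.sqrt_pos.2 ha0
  obtain ⟨ε₁, hε₁⟩ : ∃ ε₁, ε₁ = min ε (Real.sqrt a) := ⟨_, rfl⟩
  have hε₁0 : 0 < ε₁ := by rw [hε₁]; exact lt_min hε hsa
  have hε₁ε : ε₁ ≤ ε := by rw [hε₁]; exact min_le_left _ _
  have hε₁a : ε₁ ≤ Real.sqrt a := by rw [hε₁]; exact min_le_right _ _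
  obtain ⟨ν, hν⟩ : ∃ ν, ν = min ((ε₁ / 4) ^ 2) (a / 2) := ⟨_, rfl⟩
  have hν0 : 0 < ν := by rw [hν]; exact lt_min (by positivity) (by positivity)
  have hν1 : ν ≤ (ε₁ / 4) ^ 2 := by rw [hν]; exact min_le_left _ _
  have hν2 : ν ≤ a / 2 := by rw [hν]; exact min_le_right _ _
  obtain ⟨δ, hδ⟩ : ∃ δ, δ = (a - ν) / 2 := ⟨_, rfl⟩
  have hδ0 : 0 < δ := by rw [hδ]; linarith
  have h2δ : 2 * δ = a - ν := by rw [hδ]; ring
  have hsd : Real.sqrt a - ε₁ / 4 ≤ Real.sqrt (2 * δ) := by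
    rw [h2δ]
    exact sqrt_close hν0.le (by linarith) (by positivity) hν1
  have hsd1 : Real.sqrt (2 * δ) ≤ 1 := by
    rw [Real.sqrt_le_left (by norm_num)]
    linarith
  obtain ⟨h, hh⟩ : ∃ h : ℝ, h = min (1 / 100) (ε₁ / 40) := ⟨_, rfl⟩
  have hh0 : 0 < h := by rw [hh]; exact lt_min (by norm_num) (by positivity)
  have hh1 : h ≤ 1 / 100 := by rw [hh]; exact min_le_left _ _
  have hhε : h ≤ ε₁ / 40 := by rw [hh]; exact min_le_right _ _
  obtain ⟨X0, hX0⟩ := core_W hh0 hh1 hδ0 (20 / ε₁)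
  have t1 : Tendsto (fun q : ℕ => Real.log (q : ℝ)) atTop atTop :=
    Real.tendsto_log_atTop.comp tendsto_natCast_atTop_atTop
  have t2 : Tendsto (fun q : ℕ => (q : ℝ) ^ (ν / 2)) atTop atTop :=
    (tendsto_rpow_atTop (by linarith)).comp tendsto_natCast_atTop_atTop
  obtain ⟨q₀, hq₀⟩ := eventually_atTop.1 ((t1.eventually_ge_atTop X0).and
    ((t2.eventually_ge_atTop (1 / c)).and (growth hc (μ := ν / 2) (by linarith))))
  refine ⟨q₀, fun q _ hqq hq H hH => ?_⟩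
  have : Fact q.Prime := ⟨hq⟩
  obtain ⟨b1, b2, b3⟩ := hq₀ q hqq
  obtain ⟨d1, d2⟩ := hX0 q b1
  have hqp : (0 : ℝ) < q := by exact_mod_cast hq.pos
  have hH' : (q : ℝ) ^ (1 / 2 + δ) ≤ (Nat.card H : ℝ) := by
    refine le_trans ?_ hH
    rw [div_le_iff₀ hc] at b2
    calc (q : ℝ) ^ (1 / 2 + δ) = (q : ℝ) ^ (1 / 2 + δ) * 1 := (mul_one _).symm
      _ ≤ (q : ℝ) ^ (1 / 2 + δ) * ((q : ℝ) ^ (ν / 2) * c) := mul_le_mul_of_nonneg_left b2 (by positivity)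
      _ = c * (q : ℝ) ^ ((1 / 2 + δ) + ν / 2) := by rw [Real.rpow_add hqp (1 / 2 + δ)]; ring
      _ ≤ c * (q : ℝ) ^ β := by
          apply mul_le_mul_of_nonneg_left _ hc.le
          exact Real.rpow_le_rpow_of_exponent_le (by exact_mod_cast hq.one_lt.le) (by rw [hδ]; linarith)
  obtain ⟨F, hF⟩ : ∃ F, F = FF (Real.log q) := ⟨_, rfl⟩
  have hFdef : Real.sqrt (Real.log q * Real.log (Real.log (Real.log q)) / Real.log (Real.log q)) = F := by
    rw [hF]; rfl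
  rw [hFdef]
  rw [← hF] at d1 d2
  have hF0 : 0 < F := lt_of_lt_of_le (by positivity) d1
  rw [← ha]
  by_contra hcon
  rw [not_le] at hcon
  obtain ⟨V, hV⟩ : ∃ V, V = Real.exp ((Real.sqrt a - ε₁) * F) := ⟨_, rfl⟩
  have hVU : Real.exp ((Real.sqrt a - ε) * F) ≤ V := by
    rw [hV, Real.exp_le_exp]
    apply mul_le_mul_of_nonneg_right _ hF0.le
    linarith
  have hm := ncard_mono H 1 hVU
  simp only [one_mul] at hm
  have hbig := big_sum H 1 V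
  simp only [one_mul] at hbig
  have hV0 : 0 ≤ V := by rw [hV]; positivity
  have h1 := d2 H hH' V hV0 _ (Real.sqrt_nonneg _) hbig
  have h2 : (q : ℝ) ^ δ * Real.sqrt (({ψ : DirichletCharacter ℂ q | ψ ∈ H ∧
      V < ‖DirichletCharacter.LFunction ψ (1 / 2)‖}.ncard : ℝ) * (4 * q * (1 + Real.log q))) /
      (Fintype.card H : ℝ) ≤ 1 := by
    refine third_le (β := β) (δ' := δ) (t := (2 * β - 1) * (1 - θ) - ε) (μ := ν / 2) hq.one_lt.le hc
      (Nat.cast_nonneg _) (((Nat.cast_le (α := ℝ)).2 hm).trans hcon.le) (by positivity) le_rfl ?_ ?_ b3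
    · rw [← Nat.card_eq_fintype_card]
      exact hH
    · rw [hδ, ha]
      nlinarith
  have h3 : Real.exp ((Real.sqrt a - ε₁ / 2) * F) ≤ V + 3 + 1 := by
    refine le_trans ?_ (h1.trans (by linarith))
    rw [Real.exp_le_exp]
    apply mul_le_mul_of_nonneg_right _ hF0.le
    nlinarith [Real.sqrt_nonneg (2 * δ)]
  have h6 : 20 ≤ ε₁ * F := by
    rw [div_le_iff₀ hε₁0] at d1
    linarith
  have h7 := exp_gap hε₁a hF0 h6
  rw [← hV] at h7
  linarith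


theorem part2 : ∀ β : ℝ, 2 / 3 < β → β ≤ 1 → ∀ c : ℝ, 0 < c → ∀ θ : ℝ, 0 < θ → θ ≤ 1 → ∀ ε : ℝ, 0 < ε →
    ∃ η : ℝ, 0 < η ∧ ∃ Q₀ : ℕ, ∀ Q : ℕ, Q₀ ≤ Q →
      ∃ Bad : Finset ℕ, (Bad.card : ℝ) ≤ (Q : ℝ) ^ (1 - η) ∧
        ∀ (q : ℕ) [NeZero q], q.Prime → q ≤ Q → q ∉ Bad →
          ∀ (H : Subgroup (DirichletCharacter ℂ q)) (χ₀ : DirichletCharacter ℂ q),
            c * (q : ℝ) ^ β ≤ (Nat.card H : ℝ) →
            (q : ℝ) ^ ((2 * β - 1) - (3 * β - 2) * θ - ε) ≤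
              ({ψ : DirichletCharacter ℂ q | ψ ∈ H ∧ Real.exp ((Real.sqrt ((3 * β - 2) * θ) - ε) *
              Real.sqrt (Real.log q * Real.log (Real.log (Real.log q)) / Real.log (Real.log q))) ≤
                ‖DirichletCharacter.LFunction (χ₀ * ψ) (1 / 2)‖}.ncard : ℝ) := by
  intro β hβ hβ1 c hc θ hθ hθ1 ε hε
  obtain ⟨a, ha⟩ : ∃ a, a = (3 * β - 2) * θ := ⟨_, rfl⟩
  have hb0 : 0 < 3 * β - 2 := by linarith
  have ha0 : 0 < a := by rw [ha]; positivity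
  have hab : a ≤ 3 * β - 2 := by rw [ha]; nlinarith
  have ha1 : a ≤ 1 := by linarith
  have hsa : 0 < Real.sqrt a := Real.sqrt_pos.2 ha0
  obtain ⟨ε₁, hε₁⟩ : ∃ ε₁, ε₁ = min ε (Real.sqrt a) := ⟨_, rfl⟩
  have hε₁0 : 0 < ε₁ := by rw [hε₁]; exact lt_min hε hsa
  have hε₁ε : ε₁ ≤ ε := by rw [hε₁]; exact min_le_left _ _
  have hε₁a : ε₁ ≤ Real.sqrt a := by rw [hε₁]; exact min_le_right _ _
  obtain ⟨ν, hν⟩ : ∃ ν, ν = min ((ε₁ / 4) ^ 2) (a / 2) / 7 := ⟨_, rfl⟩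
  have hν0 : 0 < ν := by
    have : 0 < min ((ε₁ / 4) ^ 2) (a / 2) := lt_min (by positivity) (by positivity)
    rw [hν]
    positivity
  have hν1 : 7 * ν ≤ (ε₁ / 4) ^ 2 := by
    have := min_le_left ((ε₁ / 4) ^ 2) (a / 2)
    rw [hν]; linarith
  have hν2 : 7 * ν ≤ a / 2 := by
    have := min_le_right ((ε₁ / 4) ^ 2) (a / 2)
    rw [hν]; linarith
  obtain ⟨δ, hδ⟩ : ∃ δ, δ = (a - 7 * ν) / 2 := ⟨_, rfl⟩
  have hδ0 : 0 < δ := by rw [hδ]; linarith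
  have h2δ : 2 * δ = a - 7 * ν := by rw [hδ]; ring
  have hsd : Real.sqrt a - ε₁ / 4 ≤ Real.sqrt (2 * δ) := by
    rw [h2δ]
    exact sqrt_close (by linarith) (by linarith) (by positivity) hν1
  have hsd1 : Real.sqrt (2 * δ) ≤ 1 := by
    rw [Real.sqrt_le_left (by norm_num)]
    linarith
  obtain ⟨h, hh⟩ : ∃ h : ℝ, h = min (1 / 100) (ε₁ / 40) := ⟨_, rfl⟩
  have hh0 : 0 < h := by rw [hh]; exact lt_min (by norm_num) (by positivity)
  have hh1 : h ≤ 1 / 100 := by rw [hh]; exact min_le_left _ _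
  have hhε : h ≤ ε₁ / 40 := by rw [hh]; exact min_le_right _ _
  obtain ⟨X0, hX0⟩ := core3_W (h := h) (δ := δ) (β := β - ν) (η := ν) hh0 hh1 (by linarith)
    (by linarith) hν0 (by linarith) hδ0 (by rw [hδ]; linarith) (20 / ε₁)
  have t1 : Tendsto (fun q : ℕ => Real.log (q : ℝ)) atTop atTop :=
    Real.tendsto_log_atTop.comp tendsto_natCast_atTop_atTop
  have t2 : Tendsto (fun q : ℕ => ((q : ℝ) ^ (1 - ν)) ^ ν) atTop atTop :=
    (tendsto_rpow_atTop hν0).comp ((tendsto_rpow_atTop (by linarith)).comp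
      tendsto_natCast_atTop_atTop)
  have t3 : Tendsto (fun q : ℕ => Real.log ((q : ℝ) ^ (1 - ν))) atTop atTop :=
    Real.tendsto_log_atTop.comp ((tendsto_rpow_atTop (by linarith)).comp
      tendsto_natCast_atTop_atTop)
  have t4 : Tendsto (fun q : ℕ => (q : ℝ) ^ (ν / 2)) atTop atTop :=
    (tendsto_rpow_atTop (by positivity)).comp tendsto_natCast_atTop_atTop
  have t5 : Tendsto (fun q : ℕ => (q : ℝ) ^ (1 - ν)) atTop atTop :=
    (tendsto_rpow_atTop (by linarith)).comp tendsto_natCast_atTop_atTop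
  obtain ⟨n₀, hn₀⟩ := eventually_atTop.1 (growth hc (μ := ν / 2) (by linarith))
  obtain ⟨Q₀, hQ₀⟩ := eventually_atTop.1 ((t1.eventually_ge_atTop X0).and
    ((t2.eventually_ge_atTop (1 / c)).and ((t3.eventually_ge_atTop (Real.exp (Real.exp 1))).and
    ((t4.eventually_ge_atTop 2).and ((t5.eventually_ge_atTop (n₀ : ℝ)).and (eventually_ge_atTop 1))))))
  refine ⟨ν / 2, by positivity, Q₀, fun Q hQ => ?_⟩
  obtain ⟨b1, b2, b3, b4, b6, b5⟩ := hQ₀ Q hQ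
  obtain ⟨d1, Bad, d2, d3⟩ := hX0 Q b1
  have hQp : (0 : ℝ) < Q := by exact_mod_cast b5
  have hQr : (0 : ℝ) < (Q : ℝ) ^ (1 - ν) := by positivity
  refine ⟨Bad ∪ Finset.Icc 1 ⌊(Q : ℝ) ^ (1 - ν)⌋₊, ?_, ?_⟩
  · have h1 := Finset.card_union_le Bad (Finset.Icc 1 ⌊(Q : ℝ) ^ (1 - ν)⌋₊)
    rw [Nat.card_Icc, Nat.add_sub_cancel] at h1
    have h2 : ((Bad ∪ Finset.Icc 1 ⌊(Q : ℝ) ^ (1 - ν)⌋₊).card : ℝ) ≤
        (Bad.card : ℝ) + (⌊(Q : ℝ) ^ (1 - ν)⌋₊ : ℝ) := by exact_mod_cast h1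
    have h3 : (⌊(Q : ℝ) ^ (1 - ν)⌋₊ : ℝ) ≤ (Q : ℝ) ^ (1 - ν) := Nat.floor_le hQr.le
    have h4 : (Q : ℝ) ^ (1 - ν / 2) = (Q : ℝ) ^ (1 - ν) * (Q : ℝ) ^ (ν / 2) := by
      rw [← Real.rpow_add hQp]; congr 1; ring
    rw [h4]
    nlinarith
  · intro q _ hq hqQ hqB H χ₀ hH
    have : Fact q.Prime := ⟨hq⟩
    rw [Finset.mem_union, not_or] at hqB
    have hqY : (Q : ℝ) ^ (1 - ν) ≤ q := by
      by_contra hcon
      apply hqB.2
      rw [Finset.mem_Icc]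
      exact ⟨hq.pos, Nat.le_floor (not_le.1 hcon).le⟩
    have hqp : (0 : ℝ) < q := by exact_mod_cast hq.pos
    have hq1 : (1 : ℝ) ≤ q := by exact_mod_cast hq.one_lt.le
    have hgr := hn₀ q (by exact_mod_cast b6.trans hqY)
    have hH' : (q : ℝ) ^ (β - ν) ≤ (Nat.card H : ℝ) := by
      refine le_trans ?_ hH
      have e : (q : ℝ) ^ β = (q : ℝ) ^ (β - ν) * (q : ℝ) ^ ν := by
        rw [← Real.rpow_add hqp]; congr 1; ring
      have e2 : 1 / c ≤ (q : ℝ) ^ ν := b2.trans (Real.rpow_le_rpow hQr.le hqY hν0.le)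
      rw [div_le_iff₀ hc] at e2
      have h0 : 0 ≤ (q : ℝ) ^ (β - ν) := by positivity
      rw [e]
      calc (q : ℝ) ^ (β - ν) = (q : ℝ) ^ (β - ν) * 1 := (mul_one _).symm
        _ ≤ (q : ℝ) ^ (β - ν) * ((q : ℝ) ^ ν * c) := mul_le_mul_of_nonneg_left e2 h0
        _ = _ := by ring
    obtain ⟨F, hF⟩ : ∃ F, F = FF (Real.log Q) := ⟨_, rfl⟩
    have hFq : Real.sqrt (Real.log q * Real.log (Real.log (Real.log q)) / Real.log (Real.log q)) ≤ F := by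
      rw [hF]
      apply FF_mono
      · exact b3.trans (Real.log_le_log hQr hqY)
      · exact Real.log_le_log hqp (by exact_mod_cast hqQ)
    rw [← hF] at d1 d3
    have hF0 : 0 < F := lt_of_lt_of_le (by positivity) d1
    rw [← ha]
    by_contra hcon
    rw [not_le] at hcon
    obtain ⟨V, hV⟩ : ∃ V, V = Real.exp ((Real.sqrt a - ε₁) * F) := ⟨_, rfl⟩
    have hsq0 := Real.sqrt_nonneg (Real.log q * Real.log (Real.log (Real.log q)) / Real.log (Real.log q))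
    have hVU : Real.exp ((Real.sqrt a - ε) * Real.sqrt (Real.log q *
        Real.log (Real.log (Real.log q)) / Real.log (Real.log q))) ≤ V := by
      rw [hV, Real.exp_le_exp]
      calc (Real.sqrt a - ε) * Real.sqrt (Real.log q * Real.log (Real.log (Real.log q)) /
            Real.log (Real.log q)) ≤ (Real.sqrt a - ε₁) * Real.sqrt (Real.log q *
            Real.log (Real.log (Real.log q)) / Real.log (Real.log q)) :=
            mul_le_mul_of_nonneg_right (by linarith) hsq0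
        _ ≤ (Real.sqrt a - ε₁) * F := mul_le_mul_of_nonneg_left hFq (by linarith)
    have hm := ncard_mono H χ₀ hVU
    have hbig := big_sum H χ₀ V
    have hV0 : 0 ≤ V := by rw [hV]; positivity
    have h1 := d3 q hqY hqQ hqB.1 H hH' χ₀ V hV0 _ (Real.sqrt_nonneg _) hbig
    have h2 : (Q : ℝ) ^ δ * Real.sqrt (({ψ : DirichletCharacter ℂ q | ψ ∈ H ∧
        V < ‖DirichletCharacter.LFunction (χ₀ * ψ) (1 / 2)‖}.ncard : ℝ) * (4 * q * (1 + Real.log q))) /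
        (Fintype.card H : ℝ) ≤ 1 := by
      have hQδ : (Q : ℝ) ^ δ ≤ (q : ℝ) ^ (δ + ν) := by
        have e1 : (Q : ℝ) ^ δ = ((Q : ℝ) ^ (1 - ν)) ^ (δ / (1 - ν)) := by
          rw [← Real.rpow_mul hQp.le]
          congr 1
          have : (1 - ν) ≠ 0 := by
            intro h0
            linarith
          field_simp
        rw [e1]
        have hpos : 0 < 1 - ν := by linarith
        calc ((Q : ℝ) ^ (1 - ν)) ^ (δ / (1 - ν)) ≤ (q : ℝ) ^ (δ / (1 - ν)) :=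
              Real.rpow_le_rpow hQr.le hqY (by positivity)
          _ ≤ (q : ℝ) ^ (δ + ν) := by
              apply Real.rpow_le_rpow_of_exponent_le hq1
              rw [div_le_iff₀ hpos]
              nlinarith
      refine third_le (β := β) (δ' := δ + ν) (t := (2 * β - 1) - a - ε) (μ := ν / 2) hq.one_lt.le hc
        (Nat.cast_nonneg _) (((Nat.cast_le (α := ℝ)).2 hm).trans hcon.le) (by positivity) hQδ ?_ ?_ hgr
      · rw [← Nat.card_eq_fintype_card]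
        exact hH
      · rw [hδ]
        linarith
    have h3 : Real.exp ((Real.sqrt a - ε₁ / 2) * F) ≤ 2 * V + 7 + 1 := by
      refine le_trans ?_ (h1.trans (by linarith))
      rw [Real.exp_le_exp]
      apply mul_le_mul_of_nonneg_right _ hF0.le
      nlinarith [Real.sqrt_nonneg (2 * δ)]
    have h6 : 20 ≤ ε₁ * F := by
      rw [div_le_iff₀ hε₁0] at d1
      linarith
    have h7 := exp_gap hε₁a hF0 h6
    rw [← hV] at h7
    linarith

end Pool.Agent.J4.H37.MC
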